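import Pool.Agent.L5helper52.RP.Num

set_option autoImplicit false

/-! The probability that few members survive. -/

namespace Pool.L5helper52.RP

open Finset MeasureTheory ProbabilityTheory Filter
open Pool.Agent.L5helper86.UL

variable {Ω : Type} [MeasurableSpace Ω] {P : Measure Ω} {X : ℕ → Ω → ℕ}

lemma sqrt_bd {n : ℕ} {r : ℝ} (hr : 10 ≤ r) (hrn : r ^ 2 = n) : ((Nat.sqrt (2 * n) : ℕ) : ℝ) + 1 ≤ 2 * r := by
  have h1 : Nat.sqrt (2 * n) ^ 2 ≤ 2 * n := by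
    have := Nat.sqrt_le (2 * n)
    rw [sq]
    exact this
  have h2 : ((Nat.sqrt (2 * n) : ℕ) : ℝ) ^ 2 ≤ 2 * n := by exact_mod_cast h1
  rw [← hrn] at h2
  by_contra h3
  push Not at h3
  nlinarith

/-- the primes of the first stage: the bound for the classes -/
lemma cl_bd {ε c : ℝ} (hε : 0 < ε) (hε1 : ε ≤ 1 / 60) {K0 n : ℕ} (hB : Big ε c K0 n) {V : Finset ℕ}
    (hV : V ⊆ vs (Nat.sqrt (2 * n))) {q : ℕ} (hq : q ∈ s1 (30 * ε) n) (r : ℕ) :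
    (cl V q r : ℝ) ≤ 6 * (n : ℝ) ^ (1 - 6 * ε) := by
  rw [mem_s1] at hq
  obtain ⟨-, h1, h2, h3⟩ := hq
  have hn0 : (0 : ℝ) < n := by
    have := hB.n8
    exact_mod_cast (by omega : 0 < n)
  have hn1 : (1 : ℝ) ≤ n := by
    have := hB.n8
    exact_mod_cast (by omega : 1 ≤ n)
  have hq2 : 2 < q := by
    have : (2 : ℝ) < q := lt_of_le_of_lt hB.n1 h2
    exact_mod_cast this
  have h4 := cl_vs h1 hq2 hV r
  obtain ⟨R, hR⟩ : ∃ R : ℝ, R = (n : ℝ) ^ (1 / 2 : ℝ) := ⟨_, rfl⟩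
  have hR2 : R ^ 2 = n := by
    rw [hR, ← Real.rpow_natCast, ← Real.rpow_mul hn0.le]
    norm_num
  have hR10 : 10 ≤ R := by rw [hR]; exact hB.n2
  have hA := sqrt_bd hR10 hR2
  obtain ⟨A, hAd⟩ : ∃ A : ℕ, A = Nat.sqrt (2 * n) := ⟨_, rfl⟩
  rw [← hAd] at hA h4
  obtain ⟨w, hw⟩ : ∃ w : ℝ, w = (n : ℝ) ^ (6 * ε) := ⟨_, rfl⟩
  have hw0 : 0 < w := by rw [hw]; positivity
  have hw5 : w ^ 5 = (n : ℝ) ^ (30 * ε) := by
    rw [hw, ← Real.rpow_natCast, ← Real.rpow_mul hn0.le]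
    congr 1
    push_cast
    ring
  have hod : w < od q := by
    by_contra h5
    push Not at h5
    have h6 : ((od q : ℕ) : ℝ) ^ 5 ≤ w ^ 5 := by gcongr
    have h7 : (q : ℝ) < ((od q : ℕ) : ℝ) ^ 5 := by exact_mod_cast h3
    rw [hw5] at h6
    linarith
  have hRw : w ≤ R := by
    rw [hw, hR]
    exact Real.rpow_le_rpow_of_exponent_le hn1 (by linarith)
  have h8 : ((A / od q : ℕ) : ℝ) ≤ A / w := by
    calc ((A / od q : ℕ) : ℝ) ≤ (A : ℝ) / (od q : ℕ) := Nat.cast_div_le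
      _ ≤ A / w := div_le_div_of_nonneg_left (by positivity) hw0 hod.le
  have h9 : ((A / od q : ℕ) : ℝ) + 1 ≤ 3 * R / w := by
    have h10 : 1 ≤ R / w := by rw [le_div_iff₀ hw0]; linarith
    have h11 : (A : ℝ) / w ≤ 2 * R / w := div_le_div_of_nonneg_right (by linarith) hw0.le
    have e : 3 * R / w = 2 * R / w + R / w := by ring
    linarith
  have h12 : (cl V q r : ℝ) ≤ ((A : ℝ) + 1) * (((A / od q : ℕ) : ℝ) + 1) := by
    exact_mod_cast h4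
  calc (cl V q r : ℝ) ≤ ((A : ℝ) + 1) * (((A / od q : ℕ) : ℝ) + 1) := h12
    _ ≤ (2 * R) * (3 * R / w) := by gcongr
    _ = 6 * (R ^ 2 / w) := by ring
    _ = 6 * (n : ℝ) ^ (1 - 6 * ε) := by
        rw [hR2, hw, Real.rpow_sub hn0, Real.rpow_one]

theorem prob_bound (h : Sys P X) {ε c : ℝ} (hε : 0 < ε) (hε1 : ε ≤ 1 / 60) (hc : 0 < c) {K0 n : ℕ}
    (hK0 : ∀ K : ℕ, K0 ≤ K → c / Real.log K ≤ rho ((Icc 1 K).filter Nat.Prime))
    (hB : Big ε c K0 n) {V : Finset ℕ} (hV : V ⊆ vs (Nat.sqrt (2 * n)))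
    (hVc : (n : ℝ) ^ (1 - 2 * ε) ≤ #V) :
    P.real {ω | #(sv (fun q => X q ω) (s1 (30 * ε) n ∪ s2 n) V) ≤ ⌊(n : ℝ) ^ (1 / 2 - 4 * ε)⌋₊} ≤
      50 * (n : ℝ) ^ (-(3 / 2) : ℝ) := by
  have hn8 := hB.n8
  have hn0 : (0 : ℝ) < n := by exact_mod_cast (by omega : 0 < n)
  have hn1 : (1 : ℝ) ≤ n := by exact_mod_cast (by omega : 1 ≤ n)
  have hlog : 0 < Real.log n := Real.log_pos (by exact_mod_cast (by omega : 1 < n))
  obtain ⟨R, hR⟩ : ∃ R : ℝ, R = (n : ℝ) ^ (1 / 2 : ℝ) := ⟨_, rfl⟩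
  have hR2 : R ^ 2 = n := by
    rw [hR, ← Real.rpow_natCast, ← Real.rpow_mul hn0.le]
    norm_num
  have hR10 : 10 ≤ R := by rw [hR]; exact hB.n2
  have hR0 : 0 < R := by linarith
  have hA := sqrt_bd hR10 hR2
  obtain ⟨A, hAd⟩ : ∃ A : ℕ, A = Nat.sqrt (2 * n) := ⟨_, rfl⟩
  have hs1 : ∀ q ∈ s1 (30 * ε) n, q.Prime := fun q hq => (mem_s1.1 hq).2.1
  have hs2 : ∀ q ∈ s2 n, q.Prime := fun q hq => (mem_s2.1 hq).2
  have hd : Disjoint (s1 (30 * ε) n) (s2 n) := by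
    rw [disjoint_left]
    intro q h1 h2
    have := (mem_s1.1 h1).1
    have := (mem_s2.1 h2).1.1
    omega
  have hs3 : ∀ q ∈ s1 (30 * ε) n, 3 ≤ q := by
    intro q hq
    have : (2 : ℝ) < q := lt_of_le_of_lt hB.n1 (mem_s1.1 hq).2.2.1
    have h5 : 2 < q := by exact_mod_cast this
    omega
  -- the parameters
  obtain ⟨m, hm⟩ : ∃ m : ℝ, m = 6 * (n : ℝ) ^ (1 - 6 * ε) := ⟨_, rfl⟩
  have hm0 : 0 < m := by rw [hm]; positivity
  have hcl : ∀ q ∈ s1 (30 * ε) n, ∀ r, (cl V q r : ℝ) ≤ m := fun q hq r => by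
    rw [hm]; exact cl_bd hε hε1 hB hV hq r
  have hVlt : ∀ N ∈ V, N < 2 ^ (A + 2) := fun N hN => by
    rw [hAd]; exact vs_lt (hV hN)
  have hy : (0 : ℝ) < (n : ℝ) ^ 4 := by positivity
  have hys : ∀ q ∈ s2 n, (n : ℝ) ^ 4 ≤ q := fun q hq => by
    exact_mod_cast (mem_s2.1 hq).1.1.le
  obtain ⟨u, hu⟩ : ∃ u : ℕ, u = ⌊(n : ℝ) ^ (1 - 3 * ε)⌋₊ := ⟨_, rfl⟩
  have hu1 : (u : ℝ) ≤ (n : ℝ) ^ (1 - 3 * ε) := by rw [hu]; exact Nat.floor_le (by positivity)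
  have hu2 : (n : ℝ) ^ (1 - 3 * ε) / 2 ≤ u := by
    have h1 := Nat.lt_floor_add_one ((n : ℝ) ^ (1 - 3 * ε))
    rw [← hu] at h1
    have h2 := hB.n7
    linarith
  obtain ⟨T, hT⟩ : ∃ T : ℕ, T = ⌊(n : ℝ) ^ (1 / 2 - 4 * ε)⌋₊ := ⟨_, rfl⟩
  have hT1 : (T : ℝ) ≤ (n : ℝ) ^ (1 / 2 - 4 * ε) := by rw [hT]; exact Nat.floor_le (by positivity)
  rw [← hT]
  have key := few h (s1 (30 * ε) n) (s2 n) hs1 hs2 hd V hcl (l := 1 / m) (by positivity)
    (by rw [one_div, inv_mul_cancel₀ hm0.ne']) u hVlt hy hys T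
  refine key.trans ?_
  -- the density of the first stage
  have hρ1 : 2 * (n : ℝ) ^ (-ε) ≤ ∏ q ∈ s1 (30 * ε) n, (1 - 2 / (q : ℝ)) := by
    have h1 := prod_two hs3
    have h2 : c / Real.log ((n ^ 4 : ℕ) : ℝ) ≤ rho (s1 (30 * ε) n) := by
      refine (hK0 (n ^ 4) ?_).trans (rho_mono ?_ ?_)
      · exact hB.n0.trans (Nat.le_self_pow (by norm_num) n)
      · intro q hq
        exact (mem_filter.1 hq).2
      · intro q hq
        rw [mem_filter, mem_Icc]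
        have h3 := mem_s1.1 hq
        exact ⟨⟨h3.2.1.pos, h3.1⟩, h3.2.1⟩
    have h3 : Real.log ((n ^ 4 : ℕ) : ℝ) = 4 * Real.log n := by
      push_cast
      rw [Real.log_pow]
      norm_num
    rw [h3] at h2
    have h4 : c / (n : ℝ) ^ (ε / 6) ≤ c / (4 * Real.log n) :=
      div_le_div_of_nonneg_left hc.le (by positivity) hB.n3
    have h5 : (c / (n : ℝ) ^ (ε / 6)) ^ 3 ≤ rho (s1 (30 * ε) n) ^ 3 :=
      pow_le_pow_left₀ (by positivity) (h4.trans h2) 3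
    refine le_trans ?_ (h5.trans h1)
    have h6 : ((n : ℝ) ^ (ε / 6)) ^ 3 = (n : ℝ) ^ (ε / 2) := by
      rw [← Real.rpow_natCast, ← Real.rpow_mul hn0.le]
      congr 1
      push_cast
      ring
    rw [div_pow, h6, le_div_iff₀ (by positivity)]
    have h7 : (n : ℝ) ^ (-ε) * (n : ℝ) ^ (ε / 2) * (n : ℝ) ^ (ε / 2) = 1 := by
      rw [← Real.rpow_add hn0, ← Real.rpow_add hn0]
      rw [show -ε + ε / 2 + ε / 2 = 0 by ring, Real.rpow_zero]
    have h8 := hB.n4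
    have h9 : 0 < (n : ℝ) ^ (-ε) * (n : ℝ) ^ (ε / 2) := by positivity
    calc 2 * (n : ℝ) ^ (-ε) * (n : ℝ) ^ (ε / 2) = ((n : ℝ) ^ (-ε) * (n : ℝ) ^ (ε / 2)) * 2 := by ring
      _ ≤ ((n : ℝ) ^ (-ε) * (n : ℝ) ^ (ε / 2)) * (c ^ 3 * (n : ℝ) ^ (ε / 2)) :=
          mul_le_mul_of_nonneg_left h8 h9.le
      _ = c ^ 3 * ((n : ℝ) ^ (-ε) * (n : ℝ) ^ (ε / 2) * (n : ℝ) ^ (ε / 2)) := by ring
      _ = c ^ 3 := by rw [h7, mul_one]
  -- the density of the second stage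
  have hL : ((A + 2 : ℕ) : ℝ) ≤ 3 * R := by
    rw [← hAd] at hA
    push_cast
    linarith
  have hρ2 : c / (3 * R) ≤ rho (s2 n) := by
    have h2 : c / Real.log ((2 ^ (A + 2) : ℕ) : ℝ) ≤ rho (s2 n) := by
      refine (hK0 (2 ^ (A + 2)) ?_).trans (rho_mono ?_ ?_)
      · refine hB.n0.trans ?_
        have h3 : n ≤ (A + 1) ^ 2 := by
          have h4 := Nat.sqrt_lt_self (n := 2) (by norm_num)
          have h5 : 2 * n < (Nat.sqrt (2 * n) + 1) * (Nat.sqrt (2 * n) + 1) := Nat.lt_succ_sqrt _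
          rw [← hAd] at h5
          nlinarith
        have h6 : ∀ a : ℕ, (a + 1) ^ 2 ≤ 2 ^ (a + 2) := by
          intro a
          induction a with
          | zero => norm_num
          | succ a ih =>
            have h7 : 2 ^ (a + 1 + 2) = 2 * 2 ^ (a + 2) := by rw [show a + 1 + 2 = (a + 2) + 1 by ring, pow_succ]; ring
            rw [h7]
            rcases Nat.lt_or_ge a 2 with h8 | h8
            · interval_cases a <;> norm_num
            · nlinarith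
        exact h3.trans (h6 A)
      · intro q hq
        exact (mem_filter.1 hq).2
      · intro q hq
        rw [mem_filter, mem_Icc]
        have h3 := mem_s2.1 hq
        rw [← hAd] at h3
        exact ⟨⟨h3.2.pos, h3.1.2⟩, h3.2⟩
    have h3 : Real.log ((2 ^ (A + 2) : ℕ) : ℝ) ≤ 3 * R := by
      push_cast
      rw [Real.log_pow]
      have h4 : Real.log 2 ≤ 1 := by
        have := Real.log_two_lt_d9
        linarith
      calc ((A + 2 : ℕ) : ℝ) * Real.log 2 ≤ ((A + 2 : ℕ) : ℝ) * 1 := by gcongr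
        _ ≤ 3 * R := by rw [mul_one]; exact hL
    have h5 : 0 < Real.log ((2 ^ (A + 2) : ℕ) : ℝ) := by
      apply Real.log_pos
      have : 1 < 2 ^ (A + 2) := Nat.one_lt_two_pow (by omega)
      exact_mod_cast this
    exact (div_le_div_of_nonneg_left hc.le h5 h3).trans h2
  have hrb := rho_bounds hs2
  -- a small exponential
  have hexp : ∀ t : ℝ, (n : ℝ) ^ (3 * ε) / 6 ≤ t → Real.exp (-t) ≤ (n : ℝ) ^ (-(3 / 2) : ℝ) := by
    intro t ht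
    rw [Real.rpow_def_of_pos hn0, Real.exp_le_exp]
    have := hB.n6
    linarith
  have t1 : Real.exp (1 / m * u - 1 / m * (∏ q ∈ s1 (30 * ε) n, (1 - 2 / (q : ℝ))) * #V) ≤
      (n : ℝ) ^ (-(3 / 2) : ℝ) := by
    obtain ⟨Pr, hPr⟩ : ∃ Pr : ℝ, Pr = ∏ q ∈ s1 (30 * ε) n, (1 - 2 / (q : ℝ)) := ⟨_, rfl⟩
    rw [← hPr] at hρ1 ⊢
    have h1 : 2 * (n : ℝ) ^ (1 - 3 * ε) ≤ Pr * #V := by
      calc 2 * (n : ℝ) ^ (1 - 3 * ε) = (2 * (n : ℝ) ^ (-ε)) * (n : ℝ) ^ (1 - 2 * ε) := by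
            rw [mul_assoc, ← Real.rpow_add hn0]
            congr 2
            ring
        _ ≤ Pr * #V := mul_le_mul hρ1 hVc (by positivity) (le_trans (by positivity) hρ1)
    have h2 : 1 / m * (n : ℝ) ^ (1 - 3 * ε) = (n : ℝ) ^ (3 * ε) / 6 := by
      rw [hm]
      have h3 : (n : ℝ) ^ (1 - 3 * ε) = (n : ℝ) ^ (1 - 6 * ε) * (n : ℝ) ^ (3 * ε) := by
        rw [← Real.rpow_add hn0]
        congr 1
        ring
      rw [h3]
      field_simp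
    have h4 : 1 / m * u - 1 / m * Pr * #V = -(1 / m * (Pr * #V - u)) := by ring
    rw [h4]
    apply hexp
    calc (n : ℝ) ^ (3 * ε) / 6 = 1 / m * (n : ℝ) ^ (1 - 3 * ε) := h2.symm
      _ ≤ 1 / m * (Pr * #V - u) := mul_le_mul_of_nonneg_left (by linarith) (by positivity)
  have t2 : (#V : ℝ) ^ 2 * ((A + 2 : ℕ) : ℝ) / (n : ℝ) ^ 4 ≤ 48 * (n : ℝ) ^ (-(3 / 2) : ℝ) := by
    have h1 : (#V : ℝ) ≤ 4 * n := by
      have h2 : #V ≤ (A + 1) ^ 2 := by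
        refine (card_le_card hV).trans ?_
        unfold vs
        refine card_image_le.trans ?_
        rw [card_product, card_range, ← hAd, sq]
      have h3 : (#V : ℝ) ≤ ((A : ℝ) + 1) ^ 2 := by exact_mod_cast h2
      rw [← hAd] at hA
      calc (#V : ℝ) ≤ ((A : ℝ) + 1) ^ 2 := h3
        _ ≤ (2 * R) ^ 2 := by gcongr
        _ = 4 * R ^ 2 := by ring
        _ = 4 * n := by rw [hR2]
    have h2 : (n : ℝ) ^ (-(3 / 2) : ℝ) = R / (n : ℝ) ^ 2 := by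
      rw [hR, eq_div_iff (by positivity), ← Real.rpow_natCast (n : ℝ) 2, ← Real.rpow_add hn0]
      congr 1
      norm_num
    calc (#V : ℝ) ^ 2 * ((A + 2 : ℕ) : ℝ) / (n : ℝ) ^ 4 ≤ (4 * (n : ℝ)) ^ 2 * (3 * R) / (n : ℝ) ^ 4 := by
          gcongr
      _ = 48 * (R / (n : ℝ) ^ 2) := by field_simp; ring
      _ = 48 * (n : ℝ) ^ (-(3 / 2) : ℝ) := by rw [h2]
  have t3 : (2 : ℝ) ^ T * (1 - rho (s2 n) / 2) ^ u ≤ (n : ℝ) ^ (-(3 / 2) : ℝ) := by
    have h1 : (2 : ℝ) ^ T ≤ Real.exp T := by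
      have h2 : (2 : ℝ) ≤ Real.exp 1 := by
        have := Real.add_one_le_exp 1
        linarith
      calc (2 : ℝ) ^ T ≤ (Real.exp 1) ^ T := pow_le_pow_left₀ (by norm_num) h2 T
        _ = Real.exp T := by rw [← Real.exp_nat_mul, mul_one]
    have h3 : (1 - rho (s2 n) / 2) ^ u ≤ Real.exp (-(rho (s2 n) / 2 * u)) := by
      have h4 : 1 - rho (s2 n) / 2 ≤ Real.exp (-(rho (s2 n) / 2)) := by
        have := Real.add_one_le_exp (-(rho (s2 n) / 2))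
        linarith
      calc (1 - rho (s2 n) / 2) ^ u ≤ (Real.exp (-(rho (s2 n) / 2))) ^ u :=
            pow_le_pow_left₀ (by linarith [hrb.2]) h4 u
        _ = Real.exp (-(rho (s2 n) / 2 * u)) := by
            rw [← Real.exp_nat_mul]
            congr 1
            ring
    have h5 : 2 * (n : ℝ) ^ (1 / 2 - 4 * ε) ≤ rho (s2 n) / 2 * u := by
      have h6 : (n : ℝ) ^ (1 - 3 * ε) = R * ((n : ℝ) ^ ε * (n : ℝ) ^ (1 / 2 - 4 * ε)) := by
        rw [hR, ← Real.rpow_add hn0, ← Real.rpow_add hn0]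
        congr 1
        ring
      calc 2 * (n : ℝ) ^ (1 / 2 - 4 * ε) = 24 * ((n : ℝ) ^ (1 / 2 - 4 * ε) / 12) := by ring
        _ ≤ (c * (n : ℝ) ^ ε) * ((n : ℝ) ^ (1 / 2 - 4 * ε) / 12) :=
            mul_le_mul_of_nonneg_right hB.n5 (by positivity)
        _ = c / (3 * R) / 2 * ((n : ℝ) ^ (1 - 3 * ε) / 2) := by
            rw [h6]
            field_simp
            ring
        _ ≤ rho (s2 n) / 2 * u :=
            mul_le_mul (by linarith) hu2 (by positivity) (by linarith [hrb.1])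
    have h7 : (n : ℝ) ^ (3 * ε) / 6 ≤ (n : ℝ) ^ (1 / 2 - 4 * ε) := by
      have h8 : (n : ℝ) ^ (3 * ε) ≤ (n : ℝ) ^ (1 / 2 - 4 * ε) :=
        Real.rpow_le_rpow_of_exponent_le hn1 (by linarith)
      have h9 : 0 < (n : ℝ) ^ (3 * ε) := by positivity
      linarith
    calc (2 : ℝ) ^ T * (1 - rho (s2 n) / 2) ^ u
        ≤ Real.exp T * Real.exp (-(rho (s2 n) / 2 * u)) := by
          refine mul_le_mul h1 h3 ?_ (Real.exp_pos _).le
          have : 0 ≤ 1 - rho (s2 n) / 2 := by linarith [hrb.2]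
          positivity
      _ = Real.exp (-(rho (s2 n) / 2 * u - T)) := by
          rw [← Real.exp_add]
          congr 1
          ring
      _ ≤ (n : ℝ) ^ (-(3 / 2) : ℝ) := hexp _ (by linarith)
  have e : (n : ℝ) ^ (-(3 / 2) : ℝ) + (48 * (n : ℝ) ^ (-(3 / 2) : ℝ) + (n : ℝ) ^ (-(3 / 2) : ℝ)) =
      50 * (n : ℝ) ^ (-(3 / 2) : ℝ) := by ring
  rw [← e]
  exact add_le_add t1 (add_le_add t2 t3)

end Pool.L5helper52.RP
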