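import Pool.Agent.L5helper52.RP.Single

set_option autoImplicit false

/-! Both stages together. -/

namespace Pool.L5helper52.RP

open Finset MeasureTheory ProbabilityTheory
open Pool.Agent.L5helper86.UL

variable {Ω : Type} [MeasurableSpace Ω] {P : Measure Ω} {X : ℕ → Ω → ℕ}

lemma meas_set (h : Sys P X) {s : Finset ℕ} {Q : (ℕ → ℕ) → Prop} [DecidablePred Q]
    (hQ : Dep s (fun a => if Q a then (1 : ℝ) else 0)) : MeasurableSet {ω | Q (fun q => X q ω)} := by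
  have h1 := h.meas_dep hQ
  have e : {ω | Q (fun q => X q ω)} = (fun ω => if Q (fun q => X q ω) then (1 : ℝ) else 0) ⁻¹' {1} := by
    ext ω
    by_cases h2 : Q (fun q => X q ω) <;> simp [h2]
  rw [e]
  exact h1 (measurableSet_singleton _)

lemma real_eq (h : Sys P X) {s : Finset ℕ} {Q : (ℕ → ℕ) → Prop} [DecidablePred Q]
    (hQ : Dep s (fun a => if Q a then (1 : ℝ) else 0)) :
    P.real {ω | Q (fun q => X q ω)} = ∫ ω, (if Q (fun q => X q ω) then (1 : ℝ) else 0) ∂P := by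
  have h1 := meas_set h hQ
  rw [← integral_indicator_one h1]
  refine integral_congr_ae (Filter.Eventually.of_forall fun ω => ?_)
  by_cases h2 : Q (fun q => X q ω)
  · simp [Set.indicator, h2]
  · simp [Set.indicator, h2]

theorem few1 (h : Sys P X) (s : Finset ℕ) (hs : ∀ q ∈ s, q.Prime) (U : Finset ℕ) {m : ℝ}
    (hc : ∀ q ∈ s, ∀ r, (cl U q r : ℝ) ≤ m) {l : ℝ} (hl : 0 ≤ l) (hlm : l * m ≤ 1) (u : ℕ) :
    P.real {ω | #(sv (fun q => X q ω) s U) ≤ u} ≤
      Real.exp (l * u - l * (∏ q ∈ s, (1 - 2 / (q : ℝ))) * #U) := by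
  classical
  have hP := h.prob
  have h1 := stage1 h s hs U hc l hl hlm
  have hI : Integrable (fun ω => Real.exp (-(l * #(sv (fun q => X q ω) s U)))) P := by
    refine h.int_dep (sv_dep s U (fun W => Real.exp (-(l * #W)))) (M := 1) ?_
    intro a
    rw [abs_of_pos (Real.exp_pos _), Real.exp_le_one_iff]
    have : 0 ≤ l * (#(sv a s U) : ℝ) := by positivity
    linarith
  have h2 := mul_meas_ge_le_integral_of_nonneg (μ := P)
    (Filter.Eventually.of_forall fun ω => (Real.exp_pos (-(l * #(sv (fun q => X q ω) s U)))).le) hI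
    (Real.exp (-(l * u)))
  have h3 : P.real {ω | #(sv (fun q => X q ω) s U) ≤ u} ≤
      P.real {ω | Real.exp (-(l * u)) ≤ Real.exp (-(l * #(sv (fun q => X q ω) s U)))} := by
    apply measureReal_mono _ (measure_ne_top _ _)
    intro ω hω
    have h4 : (#(sv (fun q => X q ω) s U) : ℝ) ≤ u := by exact_mod_cast hω
    exact Real.exp_le_exp.2 (by nlinarith)
  have h5 : Real.exp (-(l * u)) * P.real {ω | #(sv (fun q => X q ω) s U) ≤ u} ≤
      Real.exp (-(l * (∏ q ∈ s, (1 - 2 / (q : ℝ))) * #U)) := by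
    calc _ ≤ Real.exp (-(l * u)) *
          P.real {ω | Real.exp (-(l * u)) ≤ Real.exp (-(l * #(sv (fun q => X q ω) s U)))} :=
          mul_le_mul_of_nonneg_left h3 (Real.exp_pos _).le
      _ ≤ _ := h2.trans h1
  calc P.real {ω | #(sv (fun q => X q ω) s U) ≤ u}
      = Real.exp (l * u) * (Real.exp (-(l * u)) * P.real {ω | #(sv (fun q => X q ω) s U) ≤ u}) := by
        rw [← mul_assoc, ← Real.exp_add, add_neg_cancel, Real.exp_zero, one_mul]
    _ ≤ Real.exp (l * u) * Real.exp (-(l * (∏ q ∈ s, (1 - 2 / (q : ℝ))) * #U)) :=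
        mul_le_mul_of_nonneg_left h5 (Real.exp_pos _).le
    _ = _ := by
        rw [← Real.exp_add]
        congr 1

theorem few (h : Sys P X) (s₁ s₂ : Finset ℕ) (hs₁ : ∀ q ∈ s₁, q.Prime) (hs₂ : ∀ q ∈ s₂, q.Prime)
    (hd : Disjoint s₁ s₂) (V : Finset ℕ) {m : ℝ}
    (hc : ∀ q ∈ s₁, ∀ r, (cl V q r : ℝ) ≤ m) {l : ℝ} (hl : 0 ≤ l) (hlm : l * m ≤ 1) (u : ℕ)
    {L : ℕ} (hV : ∀ N ∈ V, N < 2 ^ L) {y : ℝ} (hy : 0 < y) (hys : ∀ q ∈ s₂, y ≤ q) (T : ℕ) :
    P.real {ω | #(sv (fun q => X q ω) (s₁ ∪ s₂) V) ≤ T} ≤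
      Real.exp (l * u - l * (∏ q ∈ s₁, (1 - 2 / (q : ℝ))) * #V) +
        ((#V : ℝ) ^ 2 * L / y + 2 ^ T * (1 - rho s₂ / 2) ^ u) := by
  classical
  have hP := h.prob
  have hdep0 : Dep (s₁ ∪ s₂) (fun a : ℕ → ℕ => if #(sv a (s₁ ∪ s₂) V) ≤ T then (1 : ℝ) else 0) :=
    sv_dep _ V (fun W => if #W ≤ T then (1 : ℝ) else 0)
  have hdep1 : Dep s₁ (fun a : ℕ → ℕ => if #(sv a s₁ V) ≤ u then (1 : ℝ) else 0) :=
    sv_dep _ V (fun W => if #W ≤ u then (1 : ℝ) else 0)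
  have hf : ∀ W : Finset ℕ, Dep s₁ (fun a : ℕ → ℕ => if sv a s₁ V = W then (1 : ℝ) else 0) :=
    fun W => sv_dep _ V (fun W' => if W' = W then (1 : ℝ) else 0)
  have hf0 : ∀ (W : Finset ℕ) (a : ℕ → ℕ), 0 ≤ (if sv a s₁ V = W then (1 : ℝ) else 0) := by
    intro W a; split_ifs <;> norm_num
  have hf1 : ∀ (W : Finset ℕ) (a : ℕ → ℕ), (if sv a s₁ V = W then (1 : ℝ) else 0) ≤ 1 := by
    intro W a; split_ifs <;> norm_num
  have hdepW : ∀ W : Finset ℕ, Dep (s₁ ∪ s₂) (fun a : ℕ → ℕ =>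
      (if sv a s₁ V = W then (1 : ℝ) else 0) * (if #(sv a s₂ W) ≤ T then (1 : ℝ) else 0)) := by
    intro W a b hab
    have h1 := sv_congr (fun p hp => hab p (mem_union_left _ hp)) V
    have h2 := sv_congr (fun p hp => hab p (mem_union_right _ hp)) W
    simp only [h1, h2]
  have hbW : ∀ (W : Finset ℕ) (a : ℕ → ℕ), |(if sv a s₁ V = W then (1 : ℝ) else 0) *
      (if #(sv a s₂ W) ≤ T then (1 : ℝ) else 0)| ≤ 1 := by
    intro W a; split_ifs <;> norm_num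
  have hb1 : ∀ a : ℕ → ℕ, |if #(sv a s₁ V) ≤ u then (1 : ℝ) else 0| ≤ 1 := by
    intro a; split_ifs <;> norm_num
  have hb0 : ∀ a : ℕ → ℕ, |if #(sv a (s₁ ∪ s₂) V) ≤ T then (1 : ℝ) else 0| ≤ 1 := by
    intro a; split_ifs <;> norm_num
  have hbf : ∀ (W : Finset ℕ) (a : ℕ → ℕ), |if sv a s₁ V = W then (1 : ℝ) else 0| ≤ 1 := by
    intro W a; split_ifs <;> norm_num
  set 𝒲 := V.powerset.filter (fun W => u < #W) with h𝒲
  have hpt : ∀ ω, (if #(sv (fun q => X q ω) (s₁ ∪ s₂) V) ≤ T then (1 : ℝ) else 0) ≤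
      (if #(sv (fun q => X q ω) s₁ V) ≤ u then (1 : ℝ) else 0) +
        ∑ W ∈ 𝒲, (if sv (fun q => X q ω) s₁ V = W then (1 : ℝ) else 0) *
          (if #(sv (fun q => X q ω) s₂ W) ≤ T then (1 : ℝ) else 0) := by
    intro ω
    have h0 : 0 ≤ ∑ W ∈ 𝒲, (if sv (fun q => X q ω) s₁ V = W then (1 : ℝ) else 0) *
          (if #(sv (fun q => X q ω) s₂ W) ≤ T then (1 : ℝ) else 0) :=
      sum_nonneg fun W _ => mul_nonneg (hf0 W _) (by split_ifs <;> norm_num)
    by_cases hT : #(sv (fun q => X q ω) (s₁ ∪ s₂) V) ≤ T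
    · rw [if_pos hT]
      by_cases hu : #(sv (fun q => X q ω) s₁ V) ≤ u
      · rw [if_pos hu]
        linarith
      · rw [if_neg hu, zero_add]
        have hmem : sv (fun q => X q ω) s₁ V ∈ 𝒲 := by
          rw [h𝒲, mem_filter, mem_powerset]
          exact ⟨sv_sub _ _ _, by omega⟩
        have h2 := single_le_sum (f := fun W => (if sv (fun q => X q ω) s₁ V = W then (1 : ℝ) else 0) *
          (if #(sv (fun q => X q ω) s₂ W) ≤ T then (1 : ℝ) else 0))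
          (fun W _ => mul_nonneg (hf0 W _) (by split_ifs <;> norm_num)) hmem
        rw [sv_union] at hT
        simp only [if_pos hT, if_true, mul_one] at h2
        exact h2
    · rw [if_neg hT]
      have : 0 ≤ (if #(sv (fun q => X q ω) s₁ V) ≤ u then (1 : ℝ) else 0) := by split_ifs <;> norm_num
      linarith
  have hI0 := h.int_dep hdep0 hb0
  have hI1 := h.int_dep hdep1 hb1
  have hIW := fun W => h.int_dep (hdepW W) (hbW W)
  have hIf := fun W => h.int_dep (hf W) (hbf W)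
  have hrb := rho_bounds hs₂
  set K := (#V : ℝ) ^ 2 * L / y + 2 ^ T * (1 - rho s₂ / 2) ^ u with hK
  have hK0 : 0 ≤ K := by
    rw [hK]
    have : 0 ≤ 1 - rho s₂ / 2 := by linarith [hrb.2]
    positivity
  have hWK : ∀ W ∈ 𝒲, (#W : ℝ) ^ 2 * L / y + 2 ^ T * (1 - rho s₂ / 2) ^ #W ≤ K := by
    intro W hW
    rw [h𝒲, mem_filter, mem_powerset] at hW
    have h1 : (#W : ℝ) ≤ #V := by exact_mod_cast card_le_card hW.1
    have h2 : (1 - rho s₂ / 2) ^ #W ≤ (1 - rho s₂ / 2) ^ u :=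
      pow_le_pow_of_le_one (by linarith [hrb.2]) (by linarith [hrb.1]) hW.2.le
    rw [hK]
    gcongr
  have hsumf : ∑ W ∈ 𝒲, ∫ ω, (if sv (fun q => X q ω) s₁ V = W then (1 : ℝ) else 0) ∂P ≤ 1 := by
    rw [← integral_finsetSum _ fun W _ => hIf W]
    calc ∫ ω, ∑ W ∈ 𝒲, (if sv (fun q => X q ω) s₁ V = W then (1 : ℝ) else 0) ∂P
        ≤ ∫ _ω, (1 : ℝ) ∂P := by
          refine integral_mono (integrable_finsetSum _ fun W _ => hIf W) (integrable_const _) fun ω => ?_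
          show ∑ W ∈ 𝒲, (if sv (fun q => X q ω) s₁ V = W then (1 : ℝ) else 0) ≤ 1
          rw [sum_ite_eq]
          split_ifs <;> norm_num
      _ = 1 := by simp
  rw [real_eq h (Q := fun a => #(sv a (s₁ ∪ s₂) V) ≤ T) hdep0]
  calc ∫ ω, (if #(sv (fun q => X q ω) (s₁ ∪ s₂) V) ≤ T then (1 : ℝ) else 0) ∂P
      ≤ ∫ ω, ((if #(sv (fun q => X q ω) s₁ V) ≤ u then (1 : ℝ) else 0) +
        ∑ W ∈ 𝒲, (if sv (fun q => X q ω) s₁ V = W then (1 : ℝ) else 0) *
          (if #(sv (fun q => X q ω) s₂ W) ≤ T then (1 : ℝ) else 0)) ∂P :=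
        integral_mono hI0 (hI1.add (integrable_finsetSum _ fun W _ => hIW W)) hpt
    _ = ∫ ω, (if #(sv (fun q => X q ω) s₁ V) ≤ u then (1 : ℝ) else 0) ∂P +
        ∑ W ∈ 𝒲, ∫ ω, (if sv (fun q => X q ω) s₁ V = W then (1 : ℝ) else 0) *
          (if #(sv (fun q => X q ω) s₂ W) ≤ T then (1 : ℝ) else 0) ∂P := by
        rw [integral_add hI1 (integrable_finsetSum _ fun W _ => hIW W),
          integral_finsetSum _ fun W _ => hIW W]
    _ ≤ Real.exp (l * u - l * (∏ q ∈ s₁, (1 - 2 / (q : ℝ))) * #V) +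
        ∑ W ∈ 𝒲, K * ∫ ω, (if sv (fun q => X q ω) s₁ V = W then (1 : ℝ) else 0) ∂P := by
        refine add_le_add ?_ (sum_le_sum fun W hW => ?_)
        · rw [← real_eq h (Q := fun a => #(sv a s₁ V) ≤ u) hdep1]
          exact few1 h s₁ hs₁ V hc hl hlm u
        · have hW' := hW
          rw [h𝒲, mem_filter, mem_powerset] at hW'
          have h1 := few2 h s₁ hs₁ W (fun a => if sv a s₁ V = W then (1 : ℝ) else 0) (hf W) (hf0 W) (hf1 W)
            s₂ hs₂ hd (fun N hN => hV N (hW'.1 hN)) hy hys T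
          have hI : 0 ≤ ∫ ω, (if sv (fun q => X q ω) s₁ V = W then (1 : ℝ) else 0) ∂P :=
            integral_nonneg fun ω => hf0 W _
          exact h1.trans (mul_le_mul_of_nonneg_right (hWK W hW) hI)
    _ ≤ Real.exp (l * u - l * (∏ q ∈ s₁, (1 - 2 / (q : ℝ))) * #V) + K * 1 := by
        rw [← mul_sum]
        have := mul_le_mul_of_nonneg_left hsumf hK0
        linarith
    _ = _ := by rw [mul_one]

end Pool.L5helper52.RP
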