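import Pool.Agent.L5helper52.RP.Bound
import Pool.Agent.R154.FT.Main3
import Pool.Agent.R494.SPL3

set_option autoImplicit false

/-! Assembly. -/

namespace Pool.L5helper52.RP

open Finset MeasureTheory ProbabilityTheory Filter
open Pool.Agent.L5helper86.UL
open Pool.Agent.R494.SPL (quad val2 mem_quad fibre2)

variable {Ω : Type} [MeasurableSpace Ω] {P : Measure Ω} {X : ℕ → Ω → ℕ}

/-- small fibres -/
lemma fib {ε : ℝ} (hε : 0 < ε) (hε1 : ε ≤ 1) : ∀ᶠ n : ℕ in atTop, ∀ M : ℕ,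
    #((quad n).filter (fun v => val2 v = M)) ≤ ⌊(n : ℝ) ^ ε⌋₊ := by
  classical
  obtain ⟨C, hC, hD⟩ := Pool.Agent.H510R2.divisor_bound (ε / 4) (by positivity)
  filter_upwards [rp_big (s := ε / 2) (by positivity) (16 * (2 * C + 1) ^ 2), eventually_ge_atTop 3] with n h2 h4 M
  have hn1 : (1 : ℝ) ≤ n := by exact_mod_cast (by omega : 1 ≤ n)
  have hn0 : (0 : ℝ) < n := by linarith
  have hne : 1 ≤ (n : ℝ) ^ (ε / 4) := Real.one_le_rpow hn1 (by positivity)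
  obtain ⟨D, hDdef⟩ : ∃ D : ℕ, D = ⌊(2 * C + 1) * (n : ℝ) ^ (ε / 4)⌋₊ := ⟨_, rfl⟩
  have hD1 : 1 ≤ D := by
    rw [hDdef]
    apply Nat.le_floor
    push_cast
    nlinarith
  have hD' : ∀ k : ℕ, 1 ≤ k → k ≤ 2 * n → k.divisors.card ≤ D := by
    intro k hk hkn
    rw [hDdef]
    apply Nat.le_floor
    refine (hD k hk).trans ?_
    have h5 : (k : ℝ) ≤ 2 * n := by exact_mod_cast hkn
    have h6 : (k : ℝ) ^ (ε / 4) ≤ 2 * (n : ℝ) ^ (ε / 4) := by
      calc (k : ℝ) ^ (ε / 4) ≤ (2 * n : ℝ) ^ (ε / 4) := by gcongr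
        _ = (2 : ℝ) ^ (ε / 4) * (n : ℝ) ^ (ε / 4) := Real.mul_rpow (by norm_num) (by positivity)
        _ ≤ (2 : ℝ) ^ (1 : ℝ) * (n : ℝ) ^ (ε / 4) := by
            apply mul_le_mul_of_nonneg_right _ (by positivity)
            exact Real.rpow_le_rpow_of_exponent_le (by norm_num) (by linarith)
        _ = _ := by rw [Real.rpow_one]
    nlinarith
  have h5 := fibre2 n M D hD1 hD'
  apply Nat.le_floor
  have g2 : (D : ℝ) ≤ (2 * C + 1) * (n : ℝ) ^ (ε / 4) := by rw [hDdef]; exact Nat.floor_le (by positivity)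
  calc (#((quad n).filter (fun v => val2 v = M)) : ℝ) ≤ ((16 * D ^ 2 : ℕ) : ℝ) := by exact_mod_cast h5
    _ = 16 * (D : ℝ) ^ 2 := by push_cast; ring
    _ ≤ 16 * ((2 * C + 1) * (n : ℝ) ^ (ε / 4)) ^ 2 := by gcongr
    _ = (16 * (2 * C + 1) ^ 2) * ((n : ℝ) ^ (ε / 4) * (n : ℝ) ^ (ε / 4)) := by ring
    _ ≤ (n : ℝ) ^ (ε / 2) * ((n : ℝ) ^ (ε / 4) * (n : ℝ) ^ (ε / 4)) := by gcongr
    _ = (n : ℝ) ^ ε := by
        rw [← Real.rpow_add hn0, ← Real.rpow_add hn0]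
        congr 1
        ring

lemma val2_vs {n : ℕ} {v : ℕ × ℕ × ℕ × ℕ} (hv : v ∈ quad n) : val2 v ∈ vs (Nat.sqrt (2 * n)) := by
  rw [mem_quad] at hv
  unfold vs val2
  rw [mem_image]
  refine ⟨(v.1 + v.2.1, v.2.2.1 + v.2.2.2), ?_, rfl⟩
  rw [mem_product, mem_range, mem_range, Nat.lt_succ_iff, Nat.lt_succ_iff, Nat.le_sqrt, Nat.le_sqrt]
  obtain ⟨x, y, z, w⟩ := v
  simp only at hv ⊢
  have hxy := sq_nonneg ((x : ℤ) - y)
  have hzw := sq_nonneg ((z : ℤ) - w)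
  constructor
  · zify at hv ⊢
    nlinarith
  · zify at hv ⊢
    nlinarith

/-- the good quadruples -/
def Good (c δ : ℝ) (X : ℕ → Ω → ℕ) (ω : Ω) (n : ℕ) (v : ℕ × ℕ × ℕ × ℕ) : Prop :=
  (∀ q : ℕ, q.Prime → q ∣ val2 v → c * (Real.log n) ^ 2 < q) ∧
    ∀ p : ℕ, p.Prime → (n : ℝ) ^ δ < p → p ≤ val2 v → ¬ val2 v ≡ X p ω [MOD p]

open Classical in
theorem main0 {ε : ℝ} (hε : 0 < ε) (hε1 : ε ≤ 1 / 60) : ∃ c : ℝ, 0 < c ∧
    ∀ {Ω : Type} [MeasurableSpace Ω] {P : Measure Ω} {X : ℕ → Ω → ℕ}, Sys P X →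
      ∀ᵐ ω ∂P, ∀ᶠ n : ℕ in atTop, Odd n →
        (n : ℝ) ^ (1 / 2 - 4 * ε) < #((quad n).filter (Good c (30 * ε) X ω n)) := by
  obtain ⟨c, hc, n0, hT0⟩ := Pool.Agent.R154.FT.main3 ε hε
  refine ⟨c, hc, fun {Ω} _ {P} {X} h => ?_⟩
  have hP := h.prob
  obtain ⟨c1, hc1, K0, hK0⟩ := mert
  have hT1 : ∀ n : ℕ, ∃ T : Finset (ℕ × ℕ × ℕ × ℕ), n0 ≤ n → Odd n → (n : ℝ) ^ (1 - ε) ≤ (T.card : ℝ) ∧
      ∀ x y z w : ℕ, (x, y, z, w) ∈ T → n = x ^ 2 + y ^ 2 + z ^ 2 + w ^ 2 ∧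
        ∀ q : ℕ, q.Prime → q ∣ 2 ^ (x + y) + 2 ^ (z + w) + 1 → c * (Real.log n) ^ 2 < q := by
    intro n
    by_cases hn : n0 ≤ n ∧ Odd n
    · obtain ⟨T, hT⟩ := hT0 n hn.1 hn.2
      exact ⟨T, fun _ _ => hT⟩
    · exact ⟨∅, fun h1 h2 => absurd ⟨h1, h2⟩ hn⟩
  choose T hT using hT1
  have hsub : ∀ n, n0 ≤ n → Odd n → T n ⊆ quad n := by
    rintro n h1 h2 ⟨x, y, z, w⟩ hv
    rw [mem_quad]
    exact ((hT n h1 h2).2 x y z w hv).1
  -- the events
  have hev : ∀ᶠ n : ℕ in atTop, P.real {ω | Odd n ∧ #(sv (fun q => X q ω) (s1 (30 * ε) n ∪ s2 n)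
      ((T n).image val2)) ≤ ⌊(n : ℝ) ^ (1 / 2 - 4 * ε)⌋₊} ≤ 50 * (n : ℝ) ^ (-(3 / 2) : ℝ) := by
    filter_upwards [big_ev hε hε1 hc1 K0, fib hε (by linarith), eventually_ge_atTop (max n0 1)] with n hB hf hn
    have hn0 : n0 ≤ n := le_trans (le_max_left _ _) hn
    have hnp : (0 : ℝ) < n := by
      have : 1 ≤ n := le_trans (le_max_right _ _) hn
      exact_mod_cast this
    by_cases hodd : Odd n
    · have hV : (T n).image val2 ⊆ vs (Nat.sqrt (2 * n)) := by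
        intro N hN
        rw [mem_image] at hN
        obtain ⟨v, hv, rfl⟩ := hN
        exact val2_vs (hsub n hn0 hodd hv)
      have hVc : (n : ℝ) ^ (1 - 2 * ε) ≤ #((T n).image val2) := by
        have h1 : #(T n) ≤ ⌊(n : ℝ) ^ ε⌋₊ * #((T n).image val2) := by
          refine card_le_mul_card_image (T n) _ fun M _ => ?_
          exact (card_le_card (filter_subset_filter _ (hsub n hn0 hodd))).trans (hf M)
        have h2 : (#(T n) : ℝ) ≤ (n : ℝ) ^ ε * #((T n).image val2) := by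
          calc (#(T n) : ℝ) ≤ ((⌊(n : ℝ) ^ ε⌋₊ * #((T n).image val2) : ℕ) : ℝ) := by exact_mod_cast h1
            _ = (⌊(n : ℝ) ^ ε⌋₊ : ℝ) * #((T n).image val2) := by push_cast; ring
            _ ≤ _ := by
              gcongr
              exact Nat.floor_le (by positivity)
        have h3 := ((hT n hn0 hodd).1).trans h2
        have h4 : (n : ℝ) ^ (1 - ε) = (n : ℝ) ^ ε * (n : ℝ) ^ (1 - 2 * ε) := by
          rw [← Real.rpow_add hnp]
          congr 1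
          ring
        rw [h4] at h3
        exact le_of_mul_le_mul_left h3 (by positivity)
      have h5 := prob_bound h hε hε1 hc1 hK0 hB hV hVc
      simpa only [hodd, true_and] using h5
    · have : {ω | Odd n ∧ #(sv (fun q => X q ω) (s1 (30 * ε) n ∪ s2 n)
        ((T n).image val2)) ≤ ⌊(n : ℝ) ^ (1 / 2 - 4 * ε)⌋₊} = ∅ := by
        ext ω
        simp [hodd]
      rw [this]
      simp only [measureReal_empty]
      positivity
  have hsum : Summable (fun n : ℕ => 50 * (n : ℝ) ^ (-(3 / 2) : ℝ)) :=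
    (Real.summable_nat_rpow.2 (by norm_num)).mul_left 50
  filter_upwards [bcant hsum hev, low_order h] with ω h1 h2
  obtain ⟨p0, hp0⟩ := h2
  filter_upwards [h1, eventually_ge_atTop (max n0 1), rp_big (s := 30 * ε) (by positivity) (p0 : ℝ)]
    with n h3 hn h4 hodd
  have hn0 : n0 ≤ n := le_trans (le_max_left _ _) hn
  have h5 : ⌊(n : ℝ) ^ (1 / 2 - 4 * ε)⌋₊ < #(sv (fun q => X q ω) (s1 (30 * ε) n ∪ s2 n)
      ((T n).image val2)) := by
    by_contra h6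
    exact h3 ⟨hodd, not_lt.1 h6⟩
  have h6 : sv (fun q => X q ω) (s1 (30 * ε) n ∪ s2 n) ((T n).image val2) ⊆
      ((quad n).filter (Good c (30 * ε) X ω n)).image val2 := by
    intro N hN
    unfold sv at hN
    rw [mem_filter, mem_image] at hN
    obtain ⟨⟨v, hv, rfl⟩, hs⟩ := hN
    rw [mem_image]
    refine ⟨v, ?_, rfl⟩
    rw [mem_filter]
    refine ⟨hsub n hn0 hodd hv, ?_, ?_⟩
    · obtain ⟨x, y, z, w⟩ := v
      exact ((hT n hn0 hodd).2 x y z w hv).2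
    · intro p hp hpn hpv
      by_cases hp4 : p ≤ n ^ 4
      · by_cases hod : od p ^ 5 ≤ p
        · have h7 : (p0 : ℝ) ≤ p := h4.trans hpn.le
          exact hp0 p hp (by exact_mod_cast h7) hod _ _
        · refine hs p (mem_union_left _ ?_)
          rw [mem_s1]
          exact ⟨hp4, hp, hpn, not_le.1 hod⟩
      · refine hs p (mem_union_right _ ?_)
        rw [mem_s2]
        exact ⟨⟨not_le.1 hp4, hpv.trans (vs_lt (val2_vs (hsub n hn0 hodd hv))).le⟩, hp⟩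
  have h7 := (card_le_card h6).trans card_image_le
  have h8 := Nat.lt_of_floor_lt h5
  refine h8.trans_le ?_
  exact_mod_cast h7

end Pool.L5helper52.RP
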