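import Pool.Agent.L5helper52.RP.Ord
import Pool.Agent.H305R2.MertensE

set_option autoImplicit false

/-! Products over primes, and estimates for large `n`. -/

namespace Pool.L5helper52.RP

open Finset MeasureTheory ProbabilityTheory Filter
open Pool.Agent.L5helper86.UL

lemma mert : ∃ c : ℝ, 0 < c ∧ ∃ K0 : ℕ, ∀ K : ℕ, K0 ≤ K →
    c / Real.log K ≤ rho ((Icc 1 K).filter Nat.Prime) := by
  have h := Pool.Agent.H305R2.mertens_three
  obtain ⟨E, hE⟩ : ∃ E : ℝ, E = Real.exp Real.eulerMascheroniConstant := ⟨_, rfl⟩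
  have hE0 : 0 < E := by rw [hE]; exact Real.exp_pos _
  rw [← hE] at h
  have h1 := h.eventually_le_const (show E < E + 1 by linarith)
  obtain ⟨K0, hK0⟩ := eventually_atTop.1 h1
  refine ⟨1 / (E + 1), by positivity, max K0 2, fun K hK => ?_⟩
  have h2 := hK0 K (le_trans (le_max_left _ _) hK)
  have hK2 : 2 ≤ K := le_trans (le_max_right _ _) hK
  have hlog : 0 < Real.log K := Real.log_pos (by exact_mod_cast hK2)
  rw [div_le_iff₀ hlog, prod_inv_distrib] at h2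
  have h3 : ∏ p ∈ (Icc 1 K).filter Nat.Prime, (1 - (p : ℝ)⁻¹) = rho ((Icc 1 K).filter Nat.Prime) := by
    unfold rho
    refine prod_congr rfl fun p _ => by rw [one_div]
  rw [h3] at h2
  have h4 : 0 < rho ((Icc 1 K).filter Nat.Prime) := by
    unfold rho
    refine prod_pos fun p hp => ?_
    rw [mem_filter] at hp
    have h5 : (1 : ℝ) < p := by exact_mod_cast hp.2.one_lt
    rw [sub_pos, div_lt_one (by linarith)]
    exact h5
  rw [inv_le_iff_one_le_mul₀ h4] at h2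
  rw [div_div, div_le_iff₀ (by positivity)]
  linarith

lemma rho_mono {s t : Finset ℕ} (ht : ∀ q ∈ t, q.Prime) (h : s ⊆ t) : rho t ≤ rho s := by
  have h1 : rho t = rho (t \ s) * rho s := by
    unfold rho
    exact (prod_sdiff h).symm
  have h2 := rho_bounds (s := t \ s) fun q hq => ht q (sdiff_subset hq)
  have h3 := rho_bounds (s := s) fun q hq => ht q (h hq)
  rw [h1]
  nlinarith

lemma prod_two {s : Finset ℕ} (h3 : ∀ q ∈ s, 3 ≤ q) :
    rho s ^ 3 ≤ ∏ q ∈ s, (1 - 2 / (q : ℝ)) := by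
  unfold rho
  rw [← prod_pow]
  refine prod_le_prod ?_ ?_
  · intro q hq
    have h1 : (3 : ℝ) ≤ q := by exact_mod_cast h3 q hq
    have h2 : 1 / (q : ℝ) ≤ 1 := by
      rw [div_le_one (by linarith)]
      linarith
    have : 0 ≤ 1 - 1 / (q : ℝ) := by linarith
    positivity
  · intro q hq
    have h1 : (3 : ℝ) ≤ q := by exact_mod_cast h3 q hq
    have hq0 : (0 : ℝ) < q := by linarith
    have e : (1 - 2 / (q : ℝ)) - (1 - 1 / (q : ℝ)) ^ 3 = ((q : ℝ) ^ 2 - 3 * q + 1) / (q : ℝ) ^ 3 := by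
      field_simp
      ring
    have h2 : 0 ≤ ((q : ℝ) ^ 2 - 3 * q + 1) / (q : ℝ) ^ 3 := by
      refine div_nonneg ?_ (by positivity)
      nlinarith
    linarith

/-- the estimates which are needed -/
structure Big (ε c : ℝ) (K0 n : ℕ) : Prop where
  n0 : K0 ≤ n
  n1 : 2 ≤ (n : ℝ) ^ (30 * ε)
  n2 : 10 ≤ (n : ℝ) ^ (1 / 2 : ℝ)
  n3 : 4 * Real.log n ≤ (n : ℝ) ^ (ε / 6)
  n4 : 2 ≤ c ^ 3 * (n : ℝ) ^ (ε / 2)
  n5 : 24 ≤ c * (n : ℝ) ^ ε
  n6 : 9 * Real.log n ≤ (n : ℝ) ^ (3 * ε)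
  n7 : 2 ≤ (n : ℝ) ^ (1 - 3 * ε)
  n8 : 100 ≤ n

lemma rp_big {s : ℝ} (hs : 0 < s) (B : ℝ) : ∀ᶠ n : ℕ in atTop, B ≤ (n : ℝ) ^ s :=
  ((tendsto_rpow_atTop hs).comp tendsto_natCast_atTop_atTop).eventually_ge_atTop B

lemma log_big {s : ℝ} (hs : 0 < s) {B : ℝ} (hB : 0 < B) : ∀ᶠ n : ℕ in atTop, B * Real.log n ≤ (n : ℝ) ^ s := by
  have h1 := (isLittleO_log_rpow_atTop hs).bound (show (0 : ℝ) < 1 / B by positivity)
  filter_upwards [tendsto_natCast_atTop_atTop.eventually h1, eventually_ge_atTop 1] with n h2 h4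
  have hn1 : (1 : ℝ) ≤ n := by exact_mod_cast h4
  have hn0 : (0 : ℝ) < n := by linarith
  have hl : 0 ≤ Real.log (n : ℝ) := Real.log_nonneg hn1
  rw [Real.norm_eq_abs, Real.norm_eq_abs, abs_of_nonneg hl, abs_of_nonneg (Real.rpow_nonneg hn0.le _)] at h2
  calc B * Real.log n ≤ B * (1 / B * (n : ℝ) ^ s) := by gcongr
    _ = (n : ℝ) ^ s := by field_simp

lemma big_ev {ε c : ℝ} (hε : 0 < ε) (hε1 : ε ≤ 1 / 60) (hc : 0 < c) (K0 : ℕ) :
    ∀ᶠ n : ℕ in atTop, Big ε c K0 n := by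
  filter_upwards [eventually_ge_atTop K0, rp_big (s := 30 * ε) (by positivity) 2,
    rp_big (s := 1 / 2) (by norm_num) 10, log_big (s := ε / 6) (by positivity) (B := 4) (by norm_num),
    rp_big (s := ε / 2) (by positivity) (2 / c ^ 3), rp_big hε (24 / c),
    log_big (s := 3 * ε) (by positivity) (B := 9) (by norm_num),
    rp_big (s := 1 - 3 * ε) (by linarith) 2, eventually_ge_atTop 100] with n h0 h1 h2 h3 h4 h5 h6 h7 h8
  refine ⟨h0, h1, h2, h3, ?_, ?_, h6, h7, h8⟩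
  · rw [div_le_iff₀ (by positivity)] at h4
    linarith
  · rw [div_le_iff₀ hc] at h5
    linarith

open Classical in
/-- the primes of the first stage -/
noncomputable def s1 (δ : ℝ) (n : ℕ) : Finset ℕ :=
  (Icc 1 (n ^ 4)).filter (fun p => p.Prime ∧ (n : ℝ) ^ δ < p ∧ p < od p ^ 5)

/-- the primes of the second stage -/
def s2 (n : ℕ) : Finset ℕ := (Ioc (n ^ 4) (2 ^ (Nat.sqrt (2 * n) + 2))).filter Nat.Prime

lemma mem_s1 {δ : ℝ} {n p : ℕ} : p ∈ s1 δ n ↔ p ≤ n ^ 4 ∧ p.Prime ∧ (n : ℝ) ^ δ < p ∧ p < od p ^ 5 := by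
  unfold s1
  rw [mem_filter, mem_Icc]
  constructor
  · rintro ⟨⟨-, h1⟩, h2⟩
    exact ⟨h1, h2⟩
  · rintro ⟨h1, h2⟩
    exact ⟨⟨h2.1.pos, h1⟩, h2⟩

lemma mem_s2 {n p : ℕ} : p ∈ s2 n ↔ (n ^ 4 < p ∧ p ≤ 2 ^ (Nat.sqrt (2 * n) + 2)) ∧ p.Prime := by
  unfold s2
  rw [mem_filter, mem_Ioc]

end Pool.L5helper52.RP
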