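import Pool.Agent.L5helper52.RP.Comb

set_option autoImplicit false

/-! The numbers `2 ^ a + 2 ^ b + 1` in residue classes modulo `p`, by the order of `2`. -/

namespace Pool.L5helper52.RP

open Finset MeasureTheory ProbabilityTheory Filter
open Pool.Agent.L5helper86.UL

variable {Ω : Type} [MeasurableSpace Ω] {P : Measure Ω} {X : ℕ → Ω → ℕ}

/-- the order of `2` modulo `p` -/
noncomputable def od (p : ℕ) : ℕ := orderOf (2 : ZMod p)

lemma two_unit {p : ℕ} (hp : p.Prime) (h2 : 2 < p) : (2 : ZMod p) ≠ 0 := by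
  have := Fact.mk hp
  intro h
  have h1 : ((2 : ℕ) : ZMod p) = 0 := by exact_mod_cast h
  rw [ZMod.natCast_eq_zero_iff] at h1
  exact absurd (Nat.le_of_dvd (by norm_num) h1) (by omega)

lemma od_pos {p : ℕ} (hp : p.Prime) (h2 : 2 < p) : 0 < od p := by
  have := Fact.mk hp
  unfold od
  rw [orderOf_pos_iff]
  exact isOfFinOrder_iff_pow_eq_one.2 ⟨p - 1, by have := hp.two_le; omega, ZMod.pow_card_sub_one_eq_one (two_unit hp h2)⟩

lemma od_dvd {p : ℕ} : p ∣ 2 ^ od p - 1 := by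
  have h1 : (2 : ZMod p) ^ od p = 1 := pow_orderOf_eq_one _
  have h2 : ((2 ^ od p : ℕ) : ZMod p) = ((1 : ℕ) : ZMod p) := by push_cast; exact h1
  rw [ZMod.natCast_eq_natCast_iff] at h2
  exact (Nat.modEq_iff_dvd' Nat.one_le_two_pow).1 h2.symm

lemma lt_two_pow_od {p : ℕ} (hp : p.Prime) (h2 : 2 < p) : p < 2 ^ od p := by
  have h1 := od_pos hp h2
  have h3 : 0 < 2 ^ od p - 1 := by
    have : 2 ≤ 2 ^ od p := by
      calc 2 = 2 ^ 1 := by norm_num
        _ ≤ 2 ^ od p := Nat.pow_le_pow_right (by norm_num) h1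
    omega
  have := Nat.le_of_dvd h3 (od_dvd (p := p))
  omega

lemma pow_mod_od {p : ℕ} (a : ℕ) : 2 ^ a ≡ 2 ^ (a % od p) [MOD p] := by
  rw [← ZMod.natCast_eq_natCast_iff]
  push_cast
  exact (pow_mod_orderOf _ _).symm

lemma modEq_od {p : ℕ} (hp : p.Prime) (h2 : 2 < p) {a a' : ℕ} (h : 2 ^ a ≡ 2 ^ a' [MOD p]) :
    a ≡ a' [MOD od p] := by
  have := Fact.mk hp
  rw [← ZMod.natCast_eq_natCast_iff] at h
  push_cast at h
  have hu := od_pos hp h2
  have h3 : IsUnit (2 : ZMod p) := isUnit_iff_ne_zero.2 (two_unit hp h2)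
  obtain ⟨v, hv⟩ := h3
  have h4 : v ^ a = v ^ a' := by
    ext
    push_cast
    rw [hv]
    exact h
  rw [pow_eq_pow_iff_modEq] at h4
  have h5 : orderOf v = od p := by
    unfold od
    rw [← hv, orderOf_units]
  rwa [h5] at h4

lemma card_a {p : ℕ} (hp : p.Prime) (h2 : 2 < p) (A b r : ℕ) :
    #((range (A + 1)).filter fun a => 2 ^ a + 2 ^ b + 1 ≡ r [MOD p]) ≤ A / od p + 1 := by
  have h1 : #((range (A + 1)).filter fun a => 2 ^ a + 2 ^ b + 1 ≡ r [MOD p]) ≤ #(range (A / od p + 1)) := by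
    refine card_le_card_of_injOn (fun a => a / od p) ?_ ?_
    · intro a ha
      rw [mem_coe, mem_filter, mem_range] at ha
      rw [mem_coe, mem_range]
      exact Nat.lt_succ_of_le (Nat.div_le_div_right (by omega))
    · intro a ha a' ha' h3
      rw [mem_coe, mem_filter, mem_range] at ha ha'
      have h4 : 2 ^ a + 2 ^ b + 1 ≡ 2 ^ a' + 2 ^ b + 1 [MOD p] := ha.2.trans ha'.2.symm
      have h5 : 2 ^ a ≡ 2 ^ a' [MOD p] := by
        have := Nat.ModEq.add_right_cancel' 1 h4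
        exact Nat.ModEq.add_right_cancel' (2 ^ b) this
      have h6 : a % od p = a' % od p := modEq_od hp h2 h5
      have h7 : a / od p = a' / od p := h3
      rw [← Nat.div_add_mod a (od p), ← Nat.div_add_mod a' (od p), h6, h7]
  rwa [card_range] at h1

/-- the values -/
def vs (A : ℕ) : Finset ℕ := ((range (A + 1)) ×ˢ (range (A + 1))).image (fun z => 2 ^ z.1 + 2 ^ z.2 + 1)

lemma vs_lt {A N : ℕ} (hN : N ∈ vs A) : N < 2 ^ (A + 2) := by
  unfold vs at hN
  rw [mem_image] at hN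
  obtain ⟨⟨a, b⟩, hz, rfl⟩ := hN
  rw [mem_product, mem_range, mem_range] at hz
  have h1 : 2 ^ a ≤ 2 ^ A := Nat.pow_le_pow_right (by norm_num) (by have := hz.1; omega)
  have h2 : 2 ^ b ≤ 2 ^ A := Nat.pow_le_pow_right (by norm_num) (by have := hz.2; omega)
  have h3 : 1 ≤ 2 ^ A := Nat.one_le_two_pow
  have h4 : 2 ^ (A + 2) = 4 * 2 ^ A := by rw [pow_add]; ring
  show 2 ^ a + 2 ^ b + 1 < 2 ^ (A + 2)
  omega

lemma cl_vs {p : ℕ} (hp : p.Prime) (h2 : 2 < p) {A : ℕ} {V : Finset ℕ} (hV : V ⊆ vs A) (r : ℕ) :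
    cl V p r ≤ (A + 1) * (A / od p + 1) := by
  refine (cl_mono hV p r).trans ?_
  unfold cl vs
  have h1 : (((range (A + 1)) ×ˢ (range (A + 1))).image (fun z : ℕ × ℕ => 2 ^ z.1 + 2 ^ z.2 + 1)).filter
      (fun N => N ≡ r [MOD p]) ⊆
      ((range (A + 1)).biUnion fun b => ((range (A + 1)).filter fun a => 2 ^ a + 2 ^ b + 1 ≡ r [MOD p]).image
        (fun a => 2 ^ a + 2 ^ b + 1)) := by
    intro N hN
    rw [mem_filter, mem_image] at hN
    obtain ⟨⟨⟨a, b⟩, hz, rfl⟩, hr⟩ := hN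
    rw [mem_product] at hz
    rw [mem_biUnion]
    refine ⟨b, hz.2, ?_⟩
    rw [mem_image]
    exact ⟨a, by rw [mem_filter]; exact ⟨hz.1, hr⟩, rfl⟩
  refine (card_le_card h1).trans (card_biUnion_le.trans ?_)
  calc ∑ b ∈ range (A + 1), #(((range (A + 1)).filter fun a => 2 ^ a + 2 ^ b + 1 ≡ r [MOD p]).image
        (fun a => 2 ^ a + 2 ^ b + 1)) ≤ ∑ _b ∈ range (A + 1), (A / od p + 1) :=
        sum_le_sum fun b _ => card_image_le.trans (card_a hp h2 A b r)
    _ = (A + 1) * (A / od p + 1) := by rw [sum_const, card_range, smul_eq_mul]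

/-! ### the primes for which `2` has small order -/

/-- some number `2 ^ a + 2 ^ b + 1` is in the class `X p` -/
def Bad (X : ℕ → Ω → ℕ) (p : ℕ) : Set Ω := {ω | ∃ a b : ℕ, 2 ^ a + 2 ^ b + 1 ≡ X p ω [MOD p]}

open Classical in
lemma bad_le (h : Sys P X) {p : ℕ} (hp : p.Prime) (h2 : 2 < p) : P.real (Bad X p) ≤ (od p : ℝ) ^ 2 / p := by
  have hP := h.prob
  set R := ((range (od p)) ×ˢ (range (od p))).image (fun z : ℕ × ℕ => (2 ^ z.1 + 2 ^ z.2 + 1) % p) with hR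
  have hRc : #R ≤ od p ^ 2 := by
    rw [hR]
    refine card_image_le.trans ?_
    rw [card_product, card_range, sq]
  have hodp := od_pos hp h2
  have h1 : P.real (Bad X p) ≤ P.real (⋃ r ∈ R, {ω | X p ω = r}) := by
    refine ENNReal.toReal_mono (measure_ne_top _ _) (measure_mono_ae ?_)
    filter_upwards [h.ae_lt hp] with ω hω hb
    obtain ⟨a, b, hab⟩ := hb
    show ω ∈ ⋃ r ∈ R, {ω | X p ω = r}
    rw [Set.mem_iUnion₂]
    refine ⟨X p ω, ?_, rfl⟩
    rw [hR, mem_image]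
    refine ⟨(a % od p, b % od p), ?_, ?_⟩
    · rw [mem_product, mem_range, mem_range]
      exact ⟨Nat.mod_lt _ hodp, Nat.mod_lt _ hodp⟩
    · have h3 : 2 ^ (a % od p) + 2 ^ (b % od p) + 1 ≡ X p ω [MOD p] := by
        have h4 := ((pow_mod_od (p := p) a).add (pow_mod_od (p := p) b)).add_right 1
        exact h4.symm.trans hab
      have h5 : (2 ^ (a % od p) + 2 ^ (b % od p) + 1) % p = X p ω % p := h3
      rw [Nat.mod_eq_of_lt hω] at h5
      exact h5
  have hp0 : (0 : ℝ) < p := by exact_mod_cast hp.pos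
  calc P.real (Bad X p) ≤ P.real (⋃ r ∈ R, {ω | X p ω = r}) := h1
    _ ≤ ∑ r ∈ R, P.real {ω | X p ω = r} := measureReal_biUnion_finset_le _ _
    _ = ∑ _r ∈ R, 1 / (p : ℝ) := by
        refine sum_congr rfl fun r hr => ?_
        rw [hR, mem_image] at hr
        obtain ⟨z, -, rfl⟩ := hr
        exact h.unif p _ hp (Nat.mod_lt _ hp.pos)
    _ = #R / p := by rw [sum_const, nsmul_eq_mul]; ring
    _ ≤ (od p : ℝ) ^ 2 / p := by
        refine div_le_div_of_nonneg_right ?_ hp0.le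
        exact_mod_cast hRc

/-- some prime for which the order of `2` is `j` and at most `p ^ (1/5)` is bad -/
def BadJ (X : ℕ → Ω → ℕ) (j : ℕ) : Set Ω :=
  ⋃ p ∈ (2 ^ j - 1).primeFactors.filter (fun p => 2 < p ∧ od p = j ∧ j ^ 5 ≤ p), Bad X p

lemma badJ_le (h : Sys P X) {j : ℕ} (hj : 1 ≤ j) : P.real (BadJ X j) ≤ 1 / (j : ℝ) ^ 2 := by
  have hP := h.prob
  have hj0 : (0 : ℝ) < j := by exact_mod_cast hj
  unfold BadJ
  set F := (2 ^ j - 1).primeFactors.filter (fun p => 2 < p ∧ od p = j ∧ j ^ 5 ≤ p) with hF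
  have hFc : #F ≤ j := by
    have h1 : F ⊆ F.filter (fun p => p ∣ 2 ^ j - 1) := by
      intro p hp
      rw [mem_filter]
      refine ⟨hp, ?_⟩
      rw [hF, mem_filter, Nat.mem_primeFactors] at hp
      exact hp.1.2.1
    refine (card_le_card h1).trans (card_prime_dvd ?_ ?_ F ?_)
    · have : 2 ≤ 2 ^ j := by
        calc 2 = 2 ^ 1 := by norm_num
          _ ≤ 2 ^ j := Nat.pow_le_pow_right (by norm_num) hj
      omega
    · have : 1 ≤ 2 ^ j := Nat.one_le_two_pow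
      omega
    · intro p hp
      rw [hF, mem_filter, Nat.mem_primeFactors] at hp
      exact hp.1.1
  calc P.real (⋃ p ∈ F, Bad X p) ≤ ∑ p ∈ F, P.real (Bad X p) := measureReal_biUnion_finset_le _ _
    _ ≤ ∑ _p ∈ F, 1 / (j : ℝ) ^ 3 := by
        refine sum_le_sum fun p hp => ?_
        rw [hF, mem_filter, Nat.mem_primeFactors] at hp
        obtain ⟨⟨h1, -, -⟩, h3, h4, h5⟩ := hp
        refine (bad_le h h1 h3).trans ?_
        rw [h4]
        have h6 : (j : ℝ) ^ 5 ≤ p := by exact_mod_cast h5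
        calc (j : ℝ) ^ 2 / p ≤ (j : ℝ) ^ 2 / (j : ℝ) ^ 5 :=
              div_le_div_of_nonneg_left (by positivity) (by positivity) h6
          _ = 1 / (j : ℝ) ^ 3 := by field_simp
    _ = #F / (j : ℝ) ^ 3 := by rw [sum_const, nsmul_eq_mul]; ring
    _ ≤ j / (j : ℝ) ^ 3 := by
        refine div_le_div_of_nonneg_right ?_ (by positivity)
        exact_mod_cast hFc
    _ = 1 / (j : ℝ) ^ 2 := by field_simp

lemma bcant [IsProbabilityMeasure P] {F : ℕ → Set Ω} {g : ℕ → ℝ} (hg : Summable g)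
    (h : ∀ᶠ k : ℕ in atTop, P.real (F k) ≤ g k) : ∀ᵐ ω ∂P, ∀ᶠ k in atTop, ω ∉ F k := by
  classical
  obtain ⟨k0, hk0⟩ := eventually_atTop.1 h
  have h1 : ∑' k, P (if k0 ≤ k then F k else ∅) ≠ ⊤ := by
    have h2 : ∀ k, P (if k0 ≤ k then F k else ∅) ≤ ENNReal.ofReal |g k| := by
      intro k
      by_cases hk : k0 ≤ k
      · rw [if_pos hk, ← ofReal_measureReal]
        exact ENNReal.ofReal_le_ofReal ((hk0 k hk).trans (le_abs_self _))
      · rw [if_neg hk]
        simp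
    refine ne_top_of_le_ne_top ?_ (ENNReal.tsum_le_tsum h2)
    rw [← ENNReal.ofReal_tsum_of_nonneg (fun k => abs_nonneg _) hg.abs]
    exact ENNReal.ofReal_ne_top
  filter_upwards [ae_eventually_notMem h1] with ω hω
  filter_upwards [hω, eventually_ge_atTop k0] with k h3 h4
  rwa [if_pos h4] at h3

/-- almost surely all large primes with small order of `2` are not bad -/
theorem low_order (h : Sys P X) : ∀ᵐ ω ∂P, ∃ p0 : ℕ, ∀ p : ℕ, p.Prime → p0 ≤ p → od p ^ 5 ≤ p →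
    ∀ a b : ℕ, ¬ 2 ^ a + 2 ^ b + 1 ≡ X p ω [MOD p] := by
  have hP := h.prob
  have h1 : ∀ᶠ j : ℕ in atTop, P.real (BadJ X j) ≤ 1 / (j : ℝ) ^ 2 := by
    filter_upwards [eventually_ge_atTop 1] with j hj
    exact badJ_le h hj
  filter_upwards [bcant (Real.summable_one_div_nat_pow.2 (by norm_num : 1 < 2)) h1] with ω hω
  obtain ⟨j0, hj0⟩ := eventually_atTop.1 hω
  refine ⟨2 ^ j0 + 3, fun p hp hp0 hod a b hab => ?_⟩
  have hj1 : 1 ≤ 2 ^ j0 := Nat.one_le_two_pow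
  have hp2 : 2 < p := by omega
  have h2 : j0 ≤ od p := by
    have h3 := lt_two_pow_od hp hp2
    have h4 : 2 ^ j0 < 2 ^ od p := by omega
    exact ((Nat.pow_lt_pow_iff_right (by norm_num)).1 h4).le
  refine hj0 (od p) h2 ?_
  unfold BadJ
  rw [Set.mem_iUnion₂]
  refine ⟨p, ?_, ⟨a, b, hab⟩⟩
  rw [mem_filter, Nat.mem_primeFactors]
  refine ⟨⟨hp, od_dvd, ?_⟩, hp2, rfl, hod⟩
  have h3 := lt_two_pow_od hp hp2
  omega

end Pool.L5helper52.RP
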