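import Pool.Agent.L5helper86.UL.Prob

set_option autoImplicit false

/-! Sieving a finite set by independent uniform residue classes. -/

namespace Pool.L5helper52.RP

open Finset MeasureTheory ProbabilityTheory
open Pool.Agent.L5helper86.UL

variable {Ω : Type} [MeasurableSpace Ω] {P : Measure Ω} {X : ℕ → Ω → ℕ}

/-- the members of `U` which avoid the classes `a p` modulo `p`, `p ∈ s` -/
def sv (a : ℕ → ℕ) (s U : Finset ℕ) : Finset ℕ := U.filter (fun N => ∀ p ∈ s, ¬ N ≡ a p [MOD p])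

lemma sv_empty (a : ℕ → ℕ) (U : Finset ℕ) : sv a ∅ U = U := by simp [sv]

lemma sv_sub (a : ℕ → ℕ) (s U : Finset ℕ) : sv a s U ⊆ U := filter_subset _ _

lemma sv_insert (a : ℕ → ℕ) (q : ℕ) (s U : Finset ℕ) :
    sv a (insert q s) U = (sv a s U).filter (fun N => ¬ N ≡ a q [MOD q]) := by
  ext N
  simp only [sv, mem_filter, forall_mem_insert]
  tauto

lemma sv_insert' (a : ℕ → ℕ) (q : ℕ) (s U : Finset ℕ) :
    sv a (insert q s) U = sv a s (U.filter (fun N => ¬ N ≡ a q [MOD q])) := by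
  ext N
  simp only [sv, mem_filter, forall_mem_insert]
  tauto

lemma sv_union (a : ℕ → ℕ) (s t U : Finset ℕ) : sv a (s ∪ t) U = sv a t (sv a s U) := by
  ext N
  simp only [sv, mem_filter, mem_union]
  constructor
  · rintro ⟨h1, h2⟩
    exact ⟨⟨h1, fun p hp => h2 p (Or.inl hp)⟩, fun p hp => h2 p (Or.inr hp)⟩
  · rintro ⟨⟨h1, h2⟩, h3⟩
    exact ⟨h1, fun p hp => hp.elim (h2 p) (h3 p)⟩

lemma sv_congr {a b : ℕ → ℕ} {s : Finset ℕ} (h : ∀ p ∈ s, a p = b p) (U : Finset ℕ) :
    sv a s U = sv b s U := by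
  unfold sv
  refine filter_congr fun N _ => ?_
  constructor
  · intro h1 p hp
    rw [← h p hp]
    exact h1 p hp
  · intro h1 p hp
    rw [h p hp]
    exact h1 p hp

lemma sv_dep (s U : Finset ℕ) (F : Finset ℕ → ℝ) : Dep s (fun a => F (sv a s U)) := by
  intro a b hab
  simp only [sv_congr hab U]

/-- the number of the members of `S` in the class `r` modulo `q` -/
def cl (S : Finset ℕ) (q r : ℕ) : ℕ := #(S.filter fun N => N ≡ r [MOD q])

lemma sum_cl (S : Finset ℕ) {q : ℕ} (hq : 0 < q) : ∑ r ∈ range q, cl S q r = #S := by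
  have h := card_eq_sum_card_fiberwise (s := S) (t := range q) (f := fun N => N % q)
    (fun N _ => by simpa using Nat.mod_lt N hq)
  rw [h]
  refine sum_congr rfl fun r hr => ?_
  unfold cl
  congr 1
  refine filter_congr fun N _ => ?_
  unfold Nat.ModEq
  rw [Nat.mod_eq_of_lt (mem_range.1 hr)]

lemma card_rem (S : Finset ℕ) (q r : ℕ) :
    (#(S.filter fun N => ¬ N ≡ r [MOD q]) : ℝ) = #S - cl S q r := by
  have h := card_filter_add_card_filter_not (s := S) (fun N => N ≡ r [MOD q])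
  unfold cl
  rw [← h]
  push_cast
  ring

lemma exp_two {x : ℝ} (h0 : 0 ≤ x) (h1 : x ≤ 1) : Real.exp x ≤ 1 + 2 * x := by
  have h := Real.exp_bound' h0 h1 (n := 2) (by norm_num)
  have e : ∑ m ∈ range 2, x ^ m / (m.factorial : ℝ) = 1 + x := by
    simp [sum_range_succ]
  rw [e] at h
  have h2 : x ^ 2 * ((2 : ℕ) + 1) / ((Nat.factorial 2 : ℝ) * (2 : ℕ)) ≤ x := by
    norm_num
    nlinarith
  linarith

lemma one_step1 (S : Finset ℕ) {q : ℕ} (hq : 0 < q) {l m : ℝ} (hl : 0 ≤ l) (hm : l * m ≤ 1)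
    (hc : ∀ r, (cl S q r : ℝ) ≤ m) :
    (1 / (q : ℝ)) * ∑ r ∈ range q, Real.exp (-(l * #(S.filter fun N => ¬ N ≡ r [MOD q]))) ≤
      Real.exp (-(l * (1 - 2 / q) * #S)) := by
  have hq0 : (0 : ℝ) < q := by exact_mod_cast hq
  have h1 : ∀ r ∈ range q, Real.exp (-(l * #(S.filter fun N => ¬ N ≡ r [MOD q]))) ≤
      Real.exp (-(l * #S)) * (1 + 2 * (l * cl S q r)) := by
    intro r _
    rw [card_rem]
    have e : -(l * ((#S : ℝ) - cl S q r)) = -(l * #S) + l * cl S q r := by ring
    rw [e, Real.exp_add]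
    refine mul_le_mul_of_nonneg_left ?_ (Real.exp_pos _).le
    exact exp_two (by positivity) ((mul_le_mul_of_nonneg_left (hc r) hl).trans hm)
  have h2 : ∑ r ∈ range q, Real.exp (-(l * #S)) * (1 + 2 * (l * cl S q r)) =
      Real.exp (-(l * #S)) * (q + 2 * l * #S) := by
    rw [← mul_sum, sum_add_distrib]
    simp only [sum_const, card_range, nsmul_eq_mul, mul_one]
    congr 2
    rw [← mul_sum, ← mul_sum]
    have h3 : ∑ r ∈ range q, (cl S q r : ℝ) = #S := by exact_mod_cast sum_cl S hq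
    rw [h3]
    ring
  calc (1 / (q : ℝ)) * ∑ r ∈ range q, Real.exp (-(l * #(S.filter fun N => ¬ N ≡ r [MOD q])))
      ≤ (1 / (q : ℝ)) * (Real.exp (-(l * #S)) * (q + 2 * l * #S)) := by
        rw [← h2]
        exact mul_le_mul_of_nonneg_left (sum_le_sum h1) (by positivity)
    _ = Real.exp (-(l * #S)) * (2 * l * #S / q + 1) := by
        field_simp
        ring
    _ ≤ Real.exp (-(l * #S)) * Real.exp (2 * l * #S / q) :=
        mul_le_mul_of_nonneg_left (Real.add_one_le_exp _) (Real.exp_pos _).le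
    _ = Real.exp (-(l * (1 - 2 / q) * #S)) := by
        rw [← Real.exp_add]
        congr 1
        field_simp
        ring

lemma cl_mono {S T : Finset ℕ} (h : S ⊆ T) (q r : ℕ) : cl S q r ≤ cl T q r :=
  card_le_card (filter_subset_filter _ h)

/-- Stage 1: the exponential moment -/
theorem stage1 (h : Sys P X) (s : Finset ℕ) (hs : ∀ q ∈ s, q.Prime) (U : Finset ℕ) {m : ℝ}
    (hc : ∀ q ∈ s, ∀ r, (cl U q r : ℝ) ≤ m) :
    ∀ l : ℝ, 0 ≤ l → l * m ≤ 1 →
      ∫ ω, Real.exp (-(l * #(sv (fun q => X q ω) s U))) ∂P ≤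
        Real.exp (-(l * (∏ q ∈ s, (1 - 2 / (q : ℝ))) * #U)) := by
  classical
  have hP := h.prob
  induction s using Finset.induction_on with
  | empty =>
    intro l hl _
    simp [sv_empty]
  | insert q s hqs ih =>
    intro l hl hm
    have hq : q.Prime := hs q (mem_insert_self _ _)
    have hs' : ∀ p ∈ s, p.Prime := fun p hp => hs p (mem_insert_of_mem hp)
    have hc' : ∀ p ∈ s, ∀ r, (cl U p r : ℝ) ≤ m := fun p hp => hc p (mem_insert_of_mem hp)
    have hq2 : (2 : ℝ) ≤ q := by exact_mod_cast hq.two_le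
    have hfac : 0 ≤ 1 - 2 / (q : ℝ) := by
      rw [sub_nonneg, div_le_one (by linarith)]
      exact hq2
    have hfac1 : 1 - 2 / (q : ℝ) ≤ 1 := by
      have : 0 ≤ 2 / (q : ℝ) := by positivity
      linarith
    have e1 : ∀ ω, Real.exp (-(l * #(sv (fun q => X q ω) (insert q s) U))) =
        (fun (r : ℕ) (a : ℕ → ℕ) => Real.exp (-(l * #((sv a s U).filter fun N => ¬ N ≡ r [MOD q]))))
          (X q ω) (fun q => X q ω) := by
      intro ω
      simp only [sv_insert]
    have hdep : ∀ r : ℕ, Dep s (fun a : ℕ → ℕ =>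
        Real.exp (-(l * #((sv a s U).filter fun N => ¬ N ≡ r [MOD q])))) := fun r =>
      sv_dep s U (fun W => Real.exp (-(l * #(W.filter fun N => ¬ N ≡ r [MOD q]))))
    have hb : ∀ (r : ℕ) (a : ℕ → ℕ),
        |Real.exp (-(l * #((sv a s U).filter fun N => ¬ N ≡ r [MOD q])))| ≤ 1 := by
      intro r a
      rw [abs_of_pos (Real.exp_pos _), Real.exp_le_one_iff]
      have : 0 ≤ l * (#((sv a s U).filter fun N => ¬ N ≡ r [MOD q]) : ℝ) := by positivity
      linarith
    have h1 := h.int_step hs' hq hqs hdep hb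
    simp only [e1]
    rw [h1, ← integral_finsetSum _ (fun r _ => h.int_dep (hdep r) (hb r)), ← integral_const_mul]
    have hI : Integrable (fun ω => Real.exp (-(l * (1 - 2 / q) * #(sv (fun q => X q ω) s U)))) P := by
      refine h.int_dep (sv_dep s U (fun W => Real.exp (-(l * (1 - 2 / q) * #W)))) (M := 1) ?_
      intro a
      rw [abs_of_pos (Real.exp_pos _), Real.exp_le_one_iff]
      have : 0 ≤ l * (1 - 2 / (q : ℝ)) * (#(sv a s U) : ℝ) := by positivity
      linarith
    calc ∫ ω, (1 / (q : ℝ)) * ∑ r ∈ range q,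
          Real.exp (-(l * #((sv (fun q => X q ω) s U).filter fun N => ¬ N ≡ r [MOD q]))) ∂P
        ≤ ∫ ω, Real.exp (-(l * (1 - 2 / q) * #(sv (fun q => X q ω) s U))) ∂P := by
          refine integral_mono ?_ hI ?_
          · exact (integrable_finsetSum _ fun r _ => h.int_dep (hdep r) (hb r)).const_mul _
          · intro ω
            refine one_step1 _ hq.pos hl hm fun r => ?_
            have h2 := cl_mono (sv_sub (fun q => X q ω) s U) q r
            exact le_trans (by exact_mod_cast h2) (hc q (mem_insert_self _ _) r)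
      _ ≤ Real.exp (-(l * (1 - 2 / q) * (∏ p ∈ s, (1 - 2 / (p : ℝ))) * #U)) := by
          refine ih hs' hc' (l * (1 - 2 / q)) (by positivity) ?_
          by_cases hm0 : 0 ≤ m
          · calc l * (1 - 2 / (q : ℝ)) * m = (1 - 2 / (q : ℝ)) * (l * m) := by ring
              _ ≤ 1 * 1 := mul_le_mul hfac1 hm (by positivity) (by norm_num)
              _ = 1 := one_mul 1
          · have : l * (1 - 2 / (q : ℝ)) * m ≤ 0 :=
              mul_nonpos_of_nonneg_of_nonpos (by positivity) (by linarith)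
            linarith
      _ = Real.exp (-(l * (∏ p ∈ insert q s, (1 - 2 / (p : ℝ))) * #U)) := by
          rw [prod_insert hqs]
          congr 2
          ring

end Pool.L5helper52.RP
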