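import Pool.Agent.L5helper52.RP.Proc

set_option autoImplicit false

/-! The second stage: large primes, where no class kills two members of the set. -/

namespace Pool.L5helper52.RP

open Finset MeasureTheory ProbabilityTheory
open Pool.Agent.L5helper86.UL

variable {Ω : Type} [MeasurableSpace Ω] {P : Measure Ω} {X : ℕ → Ω → ℕ}

/-- `N` is the only member of `U₀` in the class `r` modulo `q` -/
def Hit (U₀ : Finset ℕ) (q r N : ℕ) : Prop := N ≡ r [MOD q] ∧ ∀ M ∈ U₀, M ≡ r [MOD q] → M = N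

open Classical in
/-- the members of `U` which are not hit -/
noncomputable def sv1 (U₀ : Finset ℕ) (a : ℕ → ℕ) (s U : Finset ℕ) : Finset ℕ :=
  U.filter (fun N => ∀ p ∈ s, ¬ Hit U₀ p (a p) N)

open Classical in
/-- one step -/
noncomputable def rm (U₀ : Finset ℕ) (q r : ℕ) (U : Finset ℕ) : Finset ℕ :=
  U.filter (fun N => ¬ Hit U₀ q r N)

lemma sv1_insert (U₀ : Finset ℕ) (a : ℕ → ℕ) (q : ℕ) (s U : Finset ℕ) :
    sv1 U₀ a (insert q s) U = sv1 U₀ a s (rm U₀ q (a q) U) := by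
  classical
  ext N
  simp only [sv1, rm, mem_filter, forall_mem_insert]
  tauto

lemma sv1_congr (U₀ : Finset ℕ) {a b : ℕ → ℕ} {s : Finset ℕ} (h : ∀ p ∈ s, a p = b p) (U : Finset ℕ) :
    sv1 U₀ a s U = sv1 U₀ b s U := by
  classical
  unfold sv1
  refine filter_congr fun N _ => ?_
  constructor
  · intro h1 p hp
    rw [← h p hp]
    exact h1 p hp
  · intro h1 p hp
    rw [h p hp]
    exact h1 p hp

lemma rm_card (U₀ : Finset ℕ) (q r : ℕ) {U : Finset ℕ} (hU : U ⊆ U₀) : #U ≤ #(rm U₀ q r U) + 1 := by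
  classical
  have h := card_filter_add_card_filter_not (s := U) (fun N => Hit U₀ q r N)
  have h1 : #(U.filter fun N => Hit U₀ q r N) ≤ 1 := by
    rw [card_le_one]
    intro M hM N hN
    rw [mem_filter] at hM hN
    exact hN.2.2 M (hU hM.1) hM.2.1
  unfold rm
  omega

open Classical in
lemma rm_sum (U₀ : Finset ℕ) {q : ℕ} (hq : 0 < q) {U : Finset ℕ} (hU : U ⊆ U₀) {t : ℝ} (ht : 1 / 2 ≤ t)
    (ht1 : t ≤ 1) :
    (1 / (q : ℝ)) * ∑ r ∈ range q, t ^ #(rm U₀ q r U) ≤ (t + (1 - t) / q) ^ #U := by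
  have hq0 : (0 : ℝ) < q := by exact_mod_cast hq
  have ht0 : 0 < t := by linarith
  set K := (range q).filter (fun r => ∃ N ∈ U, Hit U₀ q r N) with hK
  have hKc : #K ≤ #U := by
    have h1 : K ⊆ U.image (fun N => N % q) := by
      intro r hr
      rw [hK, mem_filter] at hr
      obtain ⟨hr1, N, hN, h2, -⟩ := hr
      rw [mem_image]
      refine ⟨N, hN, ?_⟩
      have h3 : N % q = r % q := h2
      rw [h3, Nat.mod_eq_of_lt (mem_range.1 hr1)]
    exact (card_le_card h1).trans card_image_le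
  have h1 : ∀ r ∈ range q, t ^ #(rm U₀ q r U) ≤ t ^ #U * (1 + if r ∈ K then (1 / t - 1) else 0) := by
    intro r hr
    by_cases hrK : r ∈ K
    · rw [if_pos hrK]
      have hU0 : 0 < #U := by
        rw [hK, mem_filter] at hrK
        obtain ⟨-, N, hN, -⟩ := hrK
        exact card_pos.2 ⟨N, hN⟩
      have h2 := rm_card U₀ q r hU
      calc t ^ #(rm U₀ q r U) ≤ t ^ (#U - 1) := pow_le_pow_of_le_one ht0.le ht1 (by omega)
        _ = t ^ #U * (1 + (1 / t - 1)) := by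
            obtain ⟨k, hk⟩ : ∃ k, #U = k + 1 := ⟨#U - 1, by omega⟩
            rw [hk, Nat.add_sub_cancel, pow_succ]
            field_simp
            ring
    · rw [if_neg hrK, add_zero, mul_one]
      have h2 : rm U₀ q r U = U := by
        unfold rm
        rw [filter_eq_self]
        intro N hN hh
        exact hrK (by rw [hK, mem_filter]; exact ⟨hr, N, hN, hh⟩)
      rw [h2]
  have hx : 0 ≤ 1 / t - 1 := by
    rw [sub_nonneg, le_div_iff₀ ht0]
    linarith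
  calc (1 / (q : ℝ)) * ∑ r ∈ range q, t ^ #(rm U₀ q r U)
      ≤ (1 / (q : ℝ)) * ∑ r ∈ range q, t ^ #U * (1 + if r ∈ K then (1 / t - 1) else 0) :=
        mul_le_mul_of_nonneg_left (sum_le_sum h1) (by positivity)
    _ = (1 / (q : ℝ)) * (t ^ #U * (q + #K * (1 / t - 1))) := by
        congr 1
        rw [← mul_sum, sum_add_distrib]
        congr 1
        simp only [sum_const, card_range, nsmul_eq_mul, mul_one]
        congr 1
        rw [← sum_filter, sum_const, nsmul_eq_mul]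
        congr 2
        rw [filter_mem_eq_inter, inter_eq_right.2 (filter_subset _ _)]
    _ ≤ (1 / (q : ℝ)) * (t ^ #U * (q + #U * (1 / t - 1))) := by
        have h3 : (#K : ℝ) ≤ #U := by exact_mod_cast hKc
        gcongr
    _ = t ^ #U * (1 + #U * ((1 / t - 1) / q)) := by
        field_simp
    _ ≤ t ^ #U * (1 + (1 / t - 1) / q) ^ #U := by
        refine mul_le_mul_of_nonneg_left ?_ (by positivity)
        refine one_add_mul_le_pow ?_ _
        have : 0 ≤ (1 / t - 1) / q := by positivity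
        linarith
    _ = (t + (1 - t) / q) ^ #U := by
        rw [← mul_pow]
        congr 1
        field_simp

/-- the density of the sieve -/
noncomputable def rho (s : Finset ℕ) : ℝ := ∏ p ∈ s, (1 - 1 / (p : ℝ))

lemma rho_bounds {s : Finset ℕ} (hs : ∀ q ∈ s, q.Prime) : 0 ≤ rho s ∧ rho s ≤ 1 := by
  have h : ∀ p ∈ s, 0 ≤ 1 - 1 / (p : ℝ) ∧ 1 - 1 / (p : ℝ) ≤ 1 := by
    intro p hp
    have h1 : (1 : ℝ) ≤ p := by exact_mod_cast (hs p hp).one_lt.le
    have h2 : 1 / (p : ℝ) ≤ 1 := by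
      rw [div_le_one (by linarith)]
      exact h1
    have h3 : 0 ≤ 1 / (p : ℝ) := by positivity
    exact ⟨by linarith, by linarith⟩
  exact ⟨prod_nonneg fun p hp => (h p hp).1, prod_le_one (fun p hp => (h p hp).1) fun p hp => (h p hp).2⟩

/-- Stage 2: the exponential moment of the number of the members which are not hit -/
theorem stage2 (h : Sys P X) (s₀ : Finset ℕ) (hs₀ : ∀ q ∈ s₀, q.Prime) (U₀ : Finset ℕ)
    (f : (ℕ → ℕ) → ℝ) (hf : Dep s₀ f) (hf0 : ∀ a, 0 ≤ f a) (hf1 : ∀ a, f a ≤ 1)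
    (s : Finset ℕ) (hs : ∀ q ∈ s, q.Prime) (hd : Disjoint s₀ s) :
    ∀ U ⊆ U₀,
      ∫ ω, f (fun q => X q ω) * (1 / 2 : ℝ) ^ #(sv1 U₀ (fun q => X q ω) s U) ∂P ≤
        (1 - rho s / 2) ^ #U * ∫ ω, f (fun q => X q ω) ∂P := by
  classical
  have hP := h.prob
  induction s using Finset.induction_on with
  | empty =>
    intro U _
    have e : ∀ ω, f (fun q => X q ω) * (1 / 2 : ℝ) ^ #(sv1 U₀ (fun q => X q ω) ∅ U) =
        (1 - rho ∅ / 2) ^ #U * f (fun q => X q ω) := by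
      intro ω
      have : sv1 U₀ (fun q => X q ω) ∅ U = U := by simp [sv1]
      rw [this]
      simp only [rho, prod_empty]
      norm_num [mul_comm]
    simp only [e]
    rw [integral_const_mul]
  | insert q s hqs ih =>
    intro U hU
    have hq : q.Prime := hs q (mem_insert_self _ _)
    have hs' : ∀ p ∈ s, p.Prime := fun p hp => hs p (mem_insert_of_mem hp)
    have hd' : Disjoint s₀ s := disjoint_of_subset_right (subset_insert _ _) hd
    have hq0 : q ∉ s₀ := fun h1 => (disjoint_left.1 hd) h1 (mem_insert_self _ _)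
    have hG : ∀ r : ℕ, Dep (s₀ ∪ s) (fun a : ℕ → ℕ => f a * (1 / 2 : ℝ) ^ #(sv1 U₀ a s (rm U₀ q r U))) := by
      intro r a b hab
      have h1 : f a = f b := hf a b fun p hp => hab p (mem_union_left _ hp)
      have h2 := sv1_congr U₀ (fun p hp => hab p (mem_union_right _ hp)) (rm U₀ q r U)
      simp only [h1, h2]
    have hb : ∀ (r : ℕ) (a : ℕ → ℕ), |f a * (1 / 2 : ℝ) ^ #(sv1 U₀ a s (rm U₀ q r U))| ≤ 1 := by
      intro r a
      have h2 : (1 / 2 : ℝ) ^ #(sv1 U₀ a s (rm U₀ q r U)) ≤ 1 := pow_le_one₀ (by norm_num) (by norm_num)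
      have h3 : 0 ≤ (1 / 2 : ℝ) ^ #(sv1 U₀ a s (rm U₀ q r U)) := by positivity
      rw [abs_of_nonneg (mul_nonneg (hf0 a) h3)]
      exact mul_le_one₀ (hf1 a) h3 h2
    have hpr : ∀ p ∈ s₀ ∪ s, p.Prime := by
      intro p hp
      rcases mem_union.1 hp with h1 | h1
      · exact hs₀ p h1
      · exact hs' p h1
    have hqn : q ∉ s₀ ∪ s := by
      rw [mem_union]
      rintro (h1 | h1)
      · exact hq0 h1
      · exact hqs h1
    have h1 := h.int_step hpr hq hqn hG hb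
    have e1 : ∀ ω, f (fun q => X q ω) * (1 / 2 : ℝ) ^ #(sv1 U₀ (fun q => X q ω) (insert q s) U) =
        (fun (r : ℕ) (a : ℕ → ℕ) => f a * (1 / 2 : ℝ) ^ #(sv1 U₀ a s (rm U₀ q r U)))
          (X q ω) (fun q => X q ω) := by
      intro ω
      simp only [sv1_insert]
    simp only [e1]
    rw [h1]
    have hrb := rho_bounds hs'
    have hI0 : 0 ≤ ∫ ω, f (fun q => X q ω) ∂P := integral_nonneg fun ω => hf0 _
    calc (1 / (q : ℝ)) * ∑ r ∈ range q,
          ∫ ω, f (fun q => X q ω) * (1 / 2 : ℝ) ^ #(sv1 U₀ (fun q => X q ω) s (rm U₀ q r U)) ∂P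
        ≤ (1 / (q : ℝ)) * ∑ r ∈ range q,
            ((1 - rho s / 2) ^ #(rm U₀ q r U) * ∫ ω, f (fun q => X q ω) ∂P) := by
          refine mul_le_mul_of_nonneg_left (sum_le_sum fun r _ => ?_) (by positivity)
          exact ih hs' hd' _ ((filter_subset _ _).trans hU)
      _ = ((1 / (q : ℝ)) * ∑ r ∈ range q, (1 - rho s / 2) ^ #(rm U₀ q r U)) *
            ∫ ω, f (fun q => X q ω) ∂P := by
          rw [← sum_mul, mul_assoc]
      _ ≤ (1 - rho s / 2 + (1 - (1 - rho s / 2)) / q) ^ #U * ∫ ω, f (fun q => X q ω) ∂P := by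
          refine mul_le_mul_of_nonneg_right ?_ hI0
          exact rm_sum U₀ hq.pos hU (by linarith [hrb.2]) (by linarith [hrb.1])
      _ = (1 - rho (insert q s) / 2) ^ #U * ∫ ω, f (fun q => X q ω) ∂P := by
          congr 2
          unfold rho
          rw [prod_insert hqs]
          ring

/-! ### two members of one class -/

/-- the pairs of different members of `U₀` which are congruent modulo `p` -/
def prs (U₀ : Finset ℕ) (p : ℕ) : Finset (ℕ × ℕ) :=
  (U₀ ×ˢ U₀).filter (fun z => z.1 < z.2 ∧ z.1 ≡ z.2 [MOD p])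

/-- two members of `U₀` are in the class `r` modulo `p` -/
def Dbl (U₀ : Finset ℕ) (p r : ℕ) : Prop :=
  ∃ M ∈ U₀, ∃ N ∈ U₀, M < N ∧ M ≡ r [MOD p] ∧ N ≡ r [MOD p]

open Classical in
lemma card_dbl (U₀ : Finset ℕ) (p : ℕ) : #((range p).filter fun r => Dbl U₀ p r) ≤ #(prs U₀ p) := by
  have h1 : (range p).filter (fun r => Dbl U₀ p r) ⊆ (prs U₀ p).image (fun z => z.1 % p) := by
    intro r hr
    rw [mem_filter] at hr
    obtain ⟨hr1, M, hM, N, hN, h2, h3, h4⟩ := hr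
    rw [mem_image]
    refine ⟨(M, N), ?_, ?_⟩
    · unfold prs
      rw [mem_filter, mem_product]
      exact ⟨⟨hM, hN⟩, h2, h3.trans h4.symm⟩
    · have h5 : M % p = r % p := h3
      show M % p = r
      rw [h5, Nat.mod_eq_of_lt (mem_range.1 hr1)]
  exact (card_le_card h1).trans card_image_le

lemma sv_eq_sv1 {U₀ : Finset ℕ} {a : ℕ → ℕ} {s : Finset ℕ} (h : ∀ p ∈ s, ¬ Dbl U₀ p (a p)) :
    sv a s U₀ = sv1 U₀ a s U₀ := by
  classical
  unfold sv sv1
  refine filter_congr fun N hN => ?_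
  constructor
  · intro h1 p hp hh
    exact h1 p hp hh.1
  · intro h1 p hp hh
    refine h1 p hp ⟨hh, fun M hM hMr => ?_⟩
    by_contra hne
    rcases lt_or_gt_of_ne hne with h2 | h2
    · exact h p hp ⟨M, hM, N, hN, h2, hMr, hh⟩
    · exact h p hp ⟨N, hN, M, hM, h2, hh, hMr⟩

open Classical in
lemma int_dbl (h : Sys P X) (s₀ : Finset ℕ) (hs₀ : ∀ q ∈ s₀, q.Prime) (U₀ : Finset ℕ)
    (f : (ℕ → ℕ) → ℝ) (hf : Dep s₀ f) (hf0 : ∀ a, 0 ≤ f a) (hf1 : ∀ a, f a ≤ 1)
    {p : ℕ} (hp : p.Prime) (hps : p ∉ s₀) :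
    ∫ ω, f (fun q => X q ω) * (if Dbl U₀ p (X p ω) then 1 else 0) ∂P ≤
      (#(prs U₀ p) : ℝ) / p * ∫ ω, f (fun q => X q ω) ∂P := by
  have hP := h.prob
  have hG : ∀ r : ℕ, Dep s₀ (fun a : ℕ → ℕ => f a * (if Dbl U₀ p r then (1 : ℝ) else 0)) := by
    intro r a b hab
    simp only [hf a b hab]
  have hb : ∀ (r : ℕ) (a : ℕ → ℕ), |f a * (if Dbl U₀ p r then (1 : ℝ) else 0)| ≤ 1 := by
    intro r a
    split_ifs
    · rw [mul_one, abs_of_nonneg (hf0 a)]
      exact hf1 a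
    · simp
  have h1 := h.int_step hs₀ hp hps hG hb
  rw [h1]
  have hI0 : 0 ≤ ∫ ω, f (fun q => X q ω) ∂P := integral_nonneg fun ω => hf0 _
  have h2 : ∑ r ∈ range p, ∫ ω, f (fun q => X q ω) * (if Dbl U₀ p r then (1 : ℝ) else 0) ∂P =
      (#((range p).filter fun r => Dbl U₀ p r) : ℝ) * ∫ ω, f (fun q => X q ω) ∂P := by
    rw [card_filter]
    push_cast
    rw [sum_mul]
    refine sum_congr rfl fun r _ => ?_
    rw [integral_mul_const, mul_comm]
  rw [h2]
  have h3 : (#((range p).filter fun r => Dbl U₀ p r) : ℝ) ≤ #(prs U₀ p) := by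
    exact_mod_cast card_dbl U₀ p
  calc 1 / (p : ℝ) * ((#((range p).filter fun r => Dbl U₀ p r) : ℝ) * ∫ ω, f (fun q => X q ω) ∂P)
      ≤ 1 / (p : ℝ) * ((#(prs U₀ p) : ℝ) * ∫ ω, f (fun q => X q ω) ∂P) := by gcongr
    _ = (#(prs U₀ p) : ℝ) / p * ∫ ω, f (fun q => X q ω) ∂P := by ring

lemma card_prime_dvd {D L : ℕ} (hD : D ≠ 0) (hL : D < 2 ^ L) (s : Finset ℕ) (hs : ∀ q ∈ s, q.Prime) :
    #(s.filter fun p => p ∣ D) ≤ L := by
  have h1 : s.filter (fun p => p ∣ D) ⊆ D.primeFactors := by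
    intro p hp
    rw [mem_filter] at hp
    rw [Nat.mem_primeFactors]
    exact ⟨hs p hp.1, hp.2, hD⟩
  refine (card_le_card h1).trans ?_
  have h2 : 2 ^ #D.primeFactors ≤ D := by
    calc 2 ^ #D.primeFactors = ∏ _p ∈ D.primeFactors, 2 := by rw [prod_const]
      _ ≤ ∏ p ∈ D.primeFactors, p := prod_le_prod' fun p hp => (Nat.prime_of_mem_primeFactors hp).two_le
      _ ≤ D := Nat.le_of_dvd (Nat.pos_of_ne_zero hD) (Nat.prod_primeFactors_dvd D)
  exact ((Nat.pow_lt_pow_iff_right (by norm_num)).1 (h2.trans_lt hL)).le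

lemma sum_prs {U₀ : Finset ℕ} {L : ℕ} (hU : ∀ N ∈ U₀, N < 2 ^ L) {s : Finset ℕ} (hs : ∀ q ∈ s, q.Prime)
    {y : ℝ} (hy : 0 < y) (hys : ∀ q ∈ s, y ≤ q) :
    ∑ p ∈ s, (#(prs U₀ p) : ℝ) / p ≤ (#U₀ : ℝ) ^ 2 * L / y := by
  have h1 : ∀ p ∈ s, (#(prs U₀ p) : ℝ) / p ≤ (#(prs U₀ p) : ℝ) / y := by
    intro p hp
    exact div_le_div_of_nonneg_left (by positivity) hy (hys p hp)
  refine (sum_le_sum h1).trans ?_
  rw [← sum_div]
  refine div_le_div_of_nonneg_right ?_ hy.le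
  have h2 : ∑ p ∈ s, #(prs U₀ p) ≤ #U₀ ^ 2 * L := by
    have h3 : ∀ p ∈ s, #(prs U₀ p) = ∑ z ∈ U₀ ×ˢ U₀, if z.1 < z.2 ∧ z.1 ≡ z.2 [MOD p] then 1 else 0 := by
      intro p _
      unfold prs
      rw [card_filter]
    rw [sum_congr rfl h3, sum_comm]
    calc ∑ z ∈ U₀ ×ˢ U₀, ∑ p ∈ s, (if z.1 < z.2 ∧ z.1 ≡ z.2 [MOD p] then 1 else 0)
        ≤ ∑ _z ∈ U₀ ×ˢ U₀, L := by
          refine sum_le_sum fun z hz => ?_
          rw [mem_product] at hz
          by_cases h4 : z.1 < z.2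
          · have h5 : ∑ p ∈ s, (if z.1 < z.2 ∧ z.1 ≡ z.2 [MOD p] then 1 else 0) =
                #(s.filter fun p => p ∣ z.2 - z.1) := by
              rw [card_filter]
              refine sum_congr rfl fun p _ => ?_
              have h6 : (z.1 < z.2 ∧ z.1 ≡ z.2 [MOD p]) ↔ p ∣ z.2 - z.1 := by
                rw [Nat.modEq_iff_dvd' h4.le]
                exact ⟨fun h => h.2, fun h => ⟨h4, h⟩⟩
              simp only [h6]
            rw [h5]
            refine card_prime_dvd (by omega) ?_ s hs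
            have := hU z.2 hz.2
            omega
          · have h5 : ∀ p ∈ s, (if z.1 < z.2 ∧ z.1 ≡ z.2 [MOD p] then 1 else 0) = 0 := by
              intro p _
              rw [if_neg]
              exact fun h => h4 h.1
            rw [sum_congr rfl h5]
            simp
      _ = #U₀ ^ 2 * L := by
          rw [sum_const, card_product, smul_eq_mul, sq]
  exact_mod_cast h2

open Classical in
/-- Stage 2, the probability of few survivors -/
theorem few2 (h : Sys P X) (s₀ : Finset ℕ) (hs₀ : ∀ q ∈ s₀, q.Prime) (U₀ : Finset ℕ)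
    (f : (ℕ → ℕ) → ℝ) (hf : Dep s₀ f) (hf0 : ∀ a, 0 ≤ f a) (hf1 : ∀ a, f a ≤ 1)
    (s : Finset ℕ) (hs : ∀ q ∈ s, q.Prime) (hd : Disjoint s₀ s)
    {L : ℕ} (hU : ∀ N ∈ U₀, N < 2 ^ L) {y : ℝ} (hy : 0 < y) (hys : ∀ q ∈ s, y ≤ q) (T : ℕ) :
    ∫ ω, f (fun q => X q ω) * (if #(sv (fun q => X q ω) s U₀) ≤ T then 1 else 0) ∂P ≤
      ((#U₀ : ℝ) ^ 2 * L / y + 2 ^ T * (1 - rho s / 2) ^ #U₀) * ∫ ω, f (fun q => X q ω) ∂P := by
  have hP := h.prob
  have hI0 : 0 ≤ ∫ ω, f (fun q => X q ω) ∂P := integral_nonneg fun ω => hf0 _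
  have hpt : ∀ ω, f (fun q => X q ω) * (if #(sv (fun q => X q ω) s U₀) ≤ T then (1 : ℝ) else 0) ≤
      (∑ p ∈ s, f (fun q => X q ω) * (if Dbl U₀ p (X p ω) then (1 : ℝ) else 0)) +
        2 ^ T * (f (fun q => X q ω) * (1 / 2 : ℝ) ^ #(sv1 U₀ (fun q => X q ω) s U₀)) := by
    intro ω
    have hfω := hf0 (fun q => X q ω)
    have hs1 : 0 ≤ ∑ p ∈ s, f (fun q => X q ω) * (if Dbl U₀ p (X p ω) then (1 : ℝ) else 0) :=
      sum_nonneg fun p _ => mul_nonneg hfω (by split_ifs <;> norm_num)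
    have hs2 : 0 ≤ 2 ^ T * (f (fun q => X q ω) * (1 / 2 : ℝ) ^ #(sv1 U₀ (fun q => X q ω) s U₀)) := by
      positivity
    by_cases hc : #(sv (fun q => X q ω) s U₀) ≤ T
    · rw [if_pos hc, mul_one]
      by_cases hD : ∀ p ∈ s, ¬ Dbl U₀ p (X p ω)
      · rw [sv_eq_sv1 (a := fun q => X q ω) hD] at hc
        have h2 : (1 : ℝ) ≤ 2 ^ T * (1 / 2 : ℝ) ^ #(sv1 U₀ (fun q => X q ω) s U₀) := by
          calc (1 : ℝ) = 2 ^ T * (1 / 2 : ℝ) ^ T := by rw [← mul_pow]; norm_num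
            _ ≤ _ := by
              refine mul_le_mul_of_nonneg_left ?_ (by positivity)
              exact pow_le_pow_of_le_one (by norm_num) (by norm_num) hc
        nlinarith
      · push Not at hD
        obtain ⟨p, hp, hpD⟩ := hD
        have h2 := single_le_sum (f := fun p => f (fun q => X q ω) * (if Dbl U₀ p (X p ω) then (1 : ℝ) else 0))
          (fun p _ => mul_nonneg hfω (by split_ifs <;> norm_num)) hp
        simp only [if_pos hpD, mul_one] at h2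
        linarith
    · rw [if_neg hc, mul_zero]
      linarith
  have hbd1 : ∀ a, |f a| ≤ 1 := fun a => by rw [abs_of_nonneg (hf0 a)]; exact hf1 a
  have hdepA : Dep (s₀ ∪ s) (fun a : ℕ → ℕ => f a * (if #(sv a s U₀) ≤ T then (1 : ℝ) else 0)) := by
    intro a b hab
    have h1 : f a = f b := hf a b fun p hp => hab p (mem_union_left _ hp)
    have h2 := sv_congr (fun p hp => hab p (mem_union_right _ hp)) U₀
    simp only [h1, h2]
  have hdepB : ∀ p ∈ s, Dep (s₀ ∪ s) (fun a : ℕ → ℕ => f a * (if Dbl U₀ p (a p) then (1 : ℝ) else 0)) := by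
    intro p hp a b hab
    have h1 : f a = f b := hf a b fun p hp => hab p (mem_union_left _ hp)
    have h2 : a p = b p := hab p (mem_union_right _ hp)
    simp only [h1, h2]
  have hdepC : Dep (s₀ ∪ s) (fun a : ℕ → ℕ => f a * (1 / 2 : ℝ) ^ #(sv1 U₀ a s U₀)) := by
    intro a b hab
    have h1 : f a = f b := hf a b fun p hp => hab p (mem_union_left _ hp)
    have h2 := sv1_congr U₀ (fun p hp => hab p (mem_union_right _ hp)) U₀
    simp only [h1, h2]
  have hbA : ∀ a : ℕ → ℕ, |f a * (if #(sv a s U₀) ≤ T then (1 : ℝ) else 0)| ≤ 1 := by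
    intro a
    split_ifs
    · rw [mul_one]; exact hbd1 a
    · simp
  have hbB : ∀ (p : ℕ) (a : ℕ → ℕ), |f a * (if Dbl U₀ p (a p) then (1 : ℝ) else 0)| ≤ 1 := by
    intro p a
    split_ifs
    · rw [mul_one]; exact hbd1 a
    · simp
  have hbC : ∀ a : ℕ → ℕ, |f a * (1 / 2 : ℝ) ^ #(sv1 U₀ a s U₀)| ≤ 1 := by
    intro a
    have h2 : (1 / 2 : ℝ) ^ #(sv1 U₀ a s U₀) ≤ 1 := pow_le_one₀ (by norm_num) (by norm_num)
    have h3 : 0 ≤ (1 / 2 : ℝ) ^ #(sv1 U₀ a s U₀) := by positivity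
    rw [abs_of_nonneg (mul_nonneg (hf0 a) h3)]
    exact mul_le_one₀ (hf1 a) h3 h2
  have hIA := h.int_dep hdepA hbA
  have hIB : ∀ p ∈ s, Integrable (fun ω => f (fun q => X q ω) * (if Dbl U₀ p (X p ω) then (1 : ℝ) else 0)) P :=
    fun p hp => h.int_dep (hdepB p hp) (hbB p)
  have hIC := h.int_dep hdepC hbC
  have hrb := rho_bounds hs
  calc ∫ ω, f (fun q => X q ω) * (if #(sv (fun q => X q ω) s U₀) ≤ T then 1 else 0) ∂P
      ≤ ∫ ω, ((∑ p ∈ s, f (fun q => X q ω) * (if Dbl U₀ p (X p ω) then (1 : ℝ) else 0)) +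
        2 ^ T * (f (fun q => X q ω) * (1 / 2 : ℝ) ^ #(sv1 U₀ (fun q => X q ω) s U₀))) ∂P := by
        refine integral_mono hIA ((integrable_finsetSum _ hIB).add (hIC.const_mul _)) hpt
    _ = (∑ p ∈ s, ∫ ω, f (fun q => X q ω) * (if Dbl U₀ p (X p ω) then (1 : ℝ) else 0) ∂P) +
        2 ^ T * ∫ ω, f (fun q => X q ω) * (1 / 2 : ℝ) ^ #(sv1 U₀ (fun q => X q ω) s U₀) ∂P := by
        rw [integral_add (integrable_finsetSum _ hIB) (hIC.const_mul _), integral_finsetSum _ hIB,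
          integral_const_mul]
    _ ≤ (∑ p ∈ s, (#(prs U₀ p) : ℝ) / p * ∫ ω, f (fun q => X q ω) ∂P) +
        2 ^ T * ((1 - rho s / 2) ^ #U₀ * ∫ ω, f (fun q => X q ω) ∂P) := by
        refine add_le_add (sum_le_sum fun p hp => ?_) (mul_le_mul_of_nonneg_left ?_ (by positivity))
        · exact int_dbl h s₀ hs₀ U₀ f hf hf0 hf1 (hs p hp) fun h1 => (disjoint_left.1 hd) h1 hp
        · exact stage2 h s₀ hs₀ U₀ f hf hf0 hf1 s hs hd U₀ subset_rfl
    _ = ((∑ p ∈ s, (#(prs U₀ p) : ℝ) / p) + 2 ^ T * (1 - rho s / 2) ^ #U₀) *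
          ∫ ω, f (fun q => X q ω) ∂P := by
        rw [← sum_mul]
        ring
    _ ≤ _ := by
        refine mul_le_mul_of_nonneg_right ?_ hI0
        exact add_le_add (sum_prs hU hs hy hys) le_rfl

end Pool.L5helper52.RP
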