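import Pool.Agent.L5helper52.RP.Bound

set_option autoImplicit false

/-! The upper bound for the number of the survivors. -/

namespace Pool.L5helper52.RP

open Finset MeasureTheory ProbabilityTheory Filter
open Pool.Agent.L5helper86.UL

variable {Ω : Type} [MeasurableSpace Ω] {P : Measure Ω} {X : ℕ → Ω → ℕ}

/-- one step, a prime modulo which all members are different -/
lemma up_sum {q : ℕ} (hq : 0 < q) {U : Finset ℕ} (hU : ∀ M ∈ U, ∀ N ∈ U, M ≡ N [MOD q] → M = N) {t : ℝ}
    (ht : 1 ≤ t) :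
    (1 / (q : ℝ)) * ∑ r ∈ range q, t ^ #(U.filter fun N => ¬ N ≡ r [MOD q]) ≤
      (1 + (t - 1) * (1 - 1 / q)) ^ #U := by
  have hq0 : (0 : ℝ) < q := by exact_mod_cast hq
  have hq1 : (1 : ℝ) ≤ q := by exact_mod_cast hq
  have ht0 : 0 < t := by linarith
  have h1 : ∀ r ∈ range q, t ^ #(U.filter fun N => ¬ N ≡ r [MOD q]) =
      t ^ #U * (1 - (cl U q r : ℝ) * (1 - 1 / t)) := by
    intro r _
    have h2 := card_filter_add_card_filter_not (s := U) (fun N => N ≡ r [MOD q])
    have h3 : #(U.filter fun N => N ≡ r [MOD q]) ≤ 1 := by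
      rw [card_le_one]
      intro M hM N hN
      rw [mem_filter] at hM hN
      exact hU M hM.1 N hN.1 (hM.2.trans hN.2.symm)
    have h4 : cl U q r = #(U.filter fun N => N ≡ r [MOD q]) := rfl
    rw [← h4] at h2 h3
    rcases Nat.eq_zero_or_pos (cl U q r) with h5 | h5
    · rw [h5, zero_add] at h2
      rw [h2, h5]
      simp
    · have h6 : cl U q r = 1 := by omega
      rw [h6] at h2
      rw [h6, ← h2, pow_add, pow_one]
      push_cast
      field_simp
      ring
  have h7 : ∑ r ∈ range q, (cl U q r : ℝ) = #U := by exact_mod_cast sum_cl U hq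
  have h8 : (1 / (q : ℝ)) * ∑ r ∈ range q, t ^ #(U.filter fun N => ¬ N ≡ r [MOD q]) =
      t ^ #U * (1 + #U * (-((1 - 1 / t) / q))) := by
    rw [sum_congr rfl h1, ← mul_sum, sum_sub_distrib, ← sum_mul, h7]
    simp only [sum_const, card_range, nsmul_eq_mul, mul_one]
    field_simp
    ring
  rw [h8]
  have h9 : 0 ≤ 1 - 1 / t := by
    rw [sub_nonneg, div_le_one ht0]
    exact ht
  have h10 : (1 - 1 / t) / q ≤ 1 := by
    rw [div_le_one hq0]
    have : 0 ≤ 1 / t := by positivity
    linarith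
  calc t ^ #U * (1 + #U * (-((1 - 1 / t) / q))) ≤ t ^ #U * (1 + (-((1 - 1 / t) / q))) ^ #U := by
        refine mul_le_mul_of_nonneg_left ?_ (by positivity)
        exact one_add_mul_le_pow (by linarith) _
    _ = (1 + (t - 1) * (1 - 1 / q)) ^ #U := by
        rw [← mul_pow]
        congr 1
        field_simp
        ring

/-- the exponential moment -/
theorem stage3 (h : Sys P X) (V : Finset ℕ) (s : Finset ℕ) (hs : ∀ q ∈ s, q.Prime)
    (hV : ∀ q ∈ s, ∀ M ∈ V, ∀ N ∈ V, M ≡ N [MOD q] → M = N) {t : ℝ} (ht : 1 ≤ t) :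
    ∀ U ⊆ V, ∫ ω, t ^ #(sv (fun q => X q ω) s U) ∂P ≤ (1 + (t - 1) * rho s) ^ #U := by
  classical
  have hP := h.prob
  have ht0 : 0 < t := by linarith
  induction s using Finset.induction_on with
  | empty =>
    intro U _
    simp [sv_empty, rho]
  | insert q s hqs ih =>
    intro U hU
    have hq : q.Prime := hs q (mem_insert_self _ _)
    have hs' : ∀ p ∈ s, p.Prime := fun p hp => hs p (mem_insert_of_mem hp)
    have hV' : ∀ p ∈ s, ∀ M ∈ V, ∀ N ∈ V, M ≡ N [MOD p] → M = N := fun p hp => hV p (mem_insert_of_mem hp)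
    have hrb := rho_bounds hs'
    have e1 : ∀ ω, t ^ #(sv (fun q => X q ω) (insert q s) U) =
        (fun (r : ℕ) (a : ℕ → ℕ) => t ^ #(sv a s (U.filter fun N => ¬ N ≡ r [MOD q])))
          (X q ω) (fun q => X q ω) := by
      intro ω
      simp only [sv_insert']
    have hG : ∀ r : ℕ, Dep s (fun a : ℕ → ℕ => t ^ #(sv a s (U.filter fun N => ¬ N ≡ r [MOD q]))) := fun r =>
      sv_dep s _ (fun W => t ^ #W)
    have hb : ∀ (r : ℕ) (a : ℕ → ℕ), |t ^ #(sv a s (U.filter fun N => ¬ N ≡ r [MOD q]))| ≤ t ^ #U := by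
      intro r a
      rw [abs_of_pos (by positivity)]
      refine pow_le_pow_right₀ ht ?_
      exact (card_le_card (sv_sub _ _ _)).trans (card_le_card (filter_subset _ _))
    have h1 := h.int_step hs' hq hqs hG hb
    simp only [e1]
    rw [h1]
    calc (1 / (q : ℝ)) * ∑ r ∈ range q, ∫ ω, t ^ #(sv (fun q => X q ω) s (U.filter fun N => ¬ N ≡ r [MOD q])) ∂P
        ≤ (1 / (q : ℝ)) * ∑ r ∈ range q, (1 + (t - 1) * rho s) ^ #(U.filter fun N => ¬ N ≡ r [MOD q]) := by
          refine mul_le_mul_of_nonneg_left (sum_le_sum fun r _ => ?_) (by positivity)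
          exact ih hs' hV' _ ((filter_subset _ _).trans hU)
      _ ≤ (1 + ((1 + (t - 1) * rho s) - 1) * (1 - 1 / q)) ^ #U := by
          refine up_sum hq.pos (fun M hM N hN => hV q (mem_insert_self _ _) M (hU hM) N (hU hN)) ?_
          have : 0 ≤ (t - 1) * rho s := mul_nonneg (by linarith) hrb.1
          linarith
      _ = (1 + (t - 1) * rho (insert q s)) ^ #U := by
          congr 1
          unfold rho
          rw [prod_insert hqs]
          ring

/-- many survivors have a small probability -/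
theorem many (h : Sys P X) (V : Finset ℕ) (s : Finset ℕ) (hs : ∀ q ∈ s, q.Prime)
    (hV : ∀ q ∈ s, ∀ M ∈ V, ∀ N ∈ V, M ≡ N [MOD q] → M = N) (K : ℕ) :
    P.real {ω | K ≤ #(sv (fun q => X q ω) s V)} ≤ Real.exp (rho s * #V - K / 2) := by
  classical
  have hP := h.prob
  have hrb := rho_bounds hs
  have hI : Integrable (fun ω => (2 : ℝ) ^ #(sv (fun q => X q ω) s V)) P := by
    refine h.int_dep (sv_dep s V (fun W => (2 : ℝ) ^ #W)) (M := 2 ^ #V) ?_
    intro a
    rw [abs_of_pos (by positivity)]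
    exact pow_le_pow_right₀ (by norm_num) (card_le_card (sv_sub _ _ _))
  have h1 := stage3 h V s hs hV (t := 2) (by norm_num) V subset_rfl
  have h2 := mul_meas_ge_le_integral_of_nonneg (μ := P)
    (Filter.Eventually.of_forall fun ω => by positivity) hI ((2 : ℝ) ^ K)
  have h3 : P.real {ω | K ≤ #(sv (fun q => X q ω) s V)} ≤
      P.real {ω | (2 : ℝ) ^ K ≤ (2 : ℝ) ^ #(sv (fun q => X q ω) s V)} := by
    apply measureReal_mono _ (measure_ne_top _ _)
    intro ω hω
    show (2 : ℝ) ^ K ≤ (2 : ℝ) ^ #(sv (fun q => X q ω) s V)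
    exact pow_le_pow_right₀ (by norm_num) hω
  have h4 : (1 + (2 - 1) * rho s) ^ #V ≤ Real.exp (rho s * #V) := by
    calc (1 + (2 - 1) * rho s) ^ #V ≤ (Real.exp (rho s)) ^ #V := by
          refine pow_le_pow_left₀ (by linarith [hrb.1]) ?_ _
          have := Real.add_one_le_exp (rho s)
          linarith
      _ = Real.exp (rho s * #V) := by
          rw [← Real.exp_nat_mul]
          congr 1
          ring
  have h5 : Real.exp (K / 2) ≤ 2 ^ K := by
    have h6 : Real.exp (1 / 2) ≤ 2 := by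
      have h7 := Real.exp_one_lt_d9
      have h8 : Real.exp (1 / 2) ^ 2 = Real.exp 1 := by
        rw [← Real.exp_nat_mul]
        norm_num
      have h9 := Real.exp_pos (1 / 2)
      nlinarith
    calc Real.exp (K / 2) = (Real.exp (1 / 2)) ^ K := by
          rw [← Real.exp_nat_mul]
          congr 1
          ring
      _ ≤ 2 ^ K := pow_le_pow_left₀ (Real.exp_pos _).le h6 K
  have h6 : Real.exp (K / 2) * P.real {ω | K ≤ #(sv (fun q => X q ω) s V)} ≤ Real.exp (rho s * #V) := by
    calc _ ≤ 2 ^ K * P.real {ω | (2 : ℝ) ^ K ≤ (2 : ℝ) ^ #(sv (fun q => X q ω) s V)} :=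
          mul_le_mul h5 h3 measureReal_nonneg (by positivity)
      _ ≤ _ := h2.trans (h1.trans h4)
  calc P.real {ω | K ≤ #(sv (fun q => X q ω) s V)}
      = Real.exp (-(K / 2)) * (Real.exp (K / 2) * P.real {ω | K ≤ #(sv (fun q => X q ω) s V)}) := by
        rw [← mul_assoc, ← Real.exp_add, neg_add_cancel, Real.exp_zero, one_mul]
    _ ≤ Real.exp (-(K / 2)) * Real.exp (rho s * #V) := mul_le_mul_of_nonneg_left h6 (Real.exp_pos _).le
    _ = _ := by
        rw [← Real.exp_add]
        congr 1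
        ring

/-- the primes modulo which the members of `V` are different -/
def df (V s : Finset ℕ) : Finset ℕ := s.filter (fun q => prs V q = ∅)

lemma df_inj {V s : Finset ℕ} : ∀ q ∈ df V s, ∀ M ∈ V, ∀ N ∈ V, M ≡ N [MOD q] → M = N := by
  intro q hq M hM N hN hMN
  unfold df at hq
  rw [mem_filter] at hq
  by_contra hne
  rcases lt_or_gt_of_ne hne with h1 | h1
  · have : (M, N) ∈ prs V q := by
      unfold prs
      rw [mem_filter, mem_product]
      exact ⟨⟨hM, hN⟩, h1, hMN⟩
    rw [hq.2] at this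
    exact notMem_empty _ this
  · have : (N, M) ∈ prs V q := by
      unfold prs
      rw [mem_filter, mem_product]
      exact ⟨⟨hN, hM⟩, h1, hMN.symm⟩
    rw [hq.2] at this
    exact notMem_empty _ this

lemma prod_one_sub {s : Finset ℕ} (hs : ∀ q ∈ s, q.Prime) : 1 - ∑ q ∈ s, 1 / (q : ℝ) ≤ rho s := by
  classical
  induction s using Finset.induction_on with
  | empty => simp [rho]
  | insert q s hqs ih =>
    have hs' : ∀ p ∈ s, p.Prime := fun p hp => hs p (mem_insert_of_mem hp)
    have hrb := rho_bounds hs'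
    have h1 := ih hs'
    rw [sum_insert hqs]
    have h2 : rho (insert q s) = (1 - 1 / (q : ℝ)) * rho s := by
      unfold rho
      rw [prod_insert hqs]
    rw [h2]
    have h3 : 0 ≤ 1 / (q : ℝ) := by positivity
    nlinarith

/-- most primes are of this kind -/
lemma rho_df {V s : Finset ℕ} (hs : ∀ q ∈ s, q.Prime) {L : ℕ} (hU : ∀ N ∈ V, N < 2 ^ L)
    {y : ℝ} (hy : 0 < y) (hys : ∀ q ∈ s, y ≤ q) (hsm : (#V : ℝ) ^ 2 * L / y ≤ 1 / 2) :
    rho (df V s) ≤ 2 * rho s := by
  classical
  have hsub : df V s ⊆ s := filter_subset _ _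
  have h1 : rho s = rho (s \ df V s) * rho (df V s) := by
    unfold rho
    exact (prod_sdiff hsub).symm
  have hs' : ∀ q ∈ s \ df V s, q.Prime := fun q hq => hs q (mem_sdiff.1 hq).1
  have h2 := prod_one_sub hs'
  have h3 : ∑ q ∈ s \ df V s, 1 / (q : ℝ) ≤ ∑ q ∈ s, (#(prs V q) : ℝ) / q := by
    calc ∑ q ∈ s \ df V s, 1 / (q : ℝ) ≤ ∑ q ∈ s \ df V s, (#(prs V q) : ℝ) / q := by
          refine sum_le_sum fun q hq => ?_
          refine div_le_div_of_nonneg_right ?_ (by positivity)
          have hq := mem_sdiff.1 hq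
          have h4 : prs V q ≠ ∅ := by
            intro h5
            apply hq.2
            unfold df
            rw [mem_filter]
            exact ⟨hq.1, h5⟩
          have h5 : 1 ≤ #(prs V q) := card_pos.2 (nonempty_iff_ne_empty.2 h4)
          exact_mod_cast h5
      _ ≤ ∑ q ∈ s, (#(prs V q) : ℝ) / q :=
          sum_le_sum_of_subset_of_nonneg sdiff_subset fun q _ _ => by positivity
  have h4 := sum_prs hU hs hy hys
  have h5 := rho_bounds (s := df V s) fun q hq => hs q (hsub hq)
  have h6 : 1 / 2 ≤ rho (s \ df V s) := by linarith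
  nlinarith [h5.1]

end Pool.L5helper52.RP
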