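import Pool.Agent.L5helper52.RP.Upper
import Pool.Agent.L5helper52.RP.Main

set_option autoImplicit false

/-! The upper bound, assembly. -/

namespace Pool.L5helper52.RP

open Finset MeasureTheory ProbabilityTheory Filter
open Pool.Agent.L5helper86.UL
open Pool.Agent.R494.SPL (quad val2 mem_quad fibre2)

variable {Ω : Type} [MeasurableSpace Ω] {P : Measure Ω} {X : ℕ → Ω → ℕ}

lemma mert_up : ∃ C : ℝ, 0 < C ∧ ∃ K0 : ℕ, ∀ K : ℕ, K0 ≤ K →
    rho ((Icc 1 K).filter Nat.Prime) ≤ C / Real.log K := by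
  have h := Pool.Agent.H305R2.mertens_three
  obtain ⟨E, hE⟩ : ∃ E : ℝ, E = Real.exp Real.eulerMascheroniConstant := ⟨_, rfl⟩
  have hE0 : 0 < E := by rw [hE]; exact Real.exp_pos _
  rw [← hE] at h
  have h1 := h.eventually_const_le (show E / 2 < E by linarith)
  obtain ⟨K0, hK0⟩ := eventually_atTop.1 h1
  refine ⟨2 / E, by positivity, max K0 2, fun K hK => ?_⟩
  have h2 := hK0 K (le_trans (le_max_left _ _) hK)
  have hK2 : 2 ≤ K := le_trans (le_max_right _ _) hK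
  have hlog : 0 < Real.log K := Real.log_pos (by exact_mod_cast hK2)
  rw [le_div_iff₀ hlog, prod_inv_distrib] at h2
  have h3 : ∏ p ∈ (Icc 1 K).filter Nat.Prime, (1 - (p : ℝ)⁻¹) = rho ((Icc 1 K).filter Nat.Prime) := by
    unfold rho
    refine prod_congr rfl fun p _ => by rw [one_div]
  rw [h3] at h2
  have h4 : 0 < rho ((Icc 1 K).filter Nat.Prime) := by
    unfold rho
    refine prod_pos fun p hp => ?_
    rw [mem_filter] at hp
    have h5 : (1 : ℝ) < p := by exact_mod_cast hp.2.one_lt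
    rw [sub_pos, div_lt_one (by linarith)]
    exact h5
  rw [← one_div, le_div_iff₀ h4] at h2
  rw [div_div, le_div_iff₀ (by positivity)]
  linarith

/-- the primes for the upper bound -/
def s3 (n : ℕ) : Finset ℕ := (Ioc (n ^ 4) (2 ^ (Nat.sqrt n / 2))).filter Nat.Prime

lemma val2_ge {n : ℕ} {v : ℕ × ℕ × ℕ × ℕ} (hv : v ∈ quad n) : 2 ^ (Nat.sqrt n / 2) ≤ val2 v := by
  rw [mem_quad] at hv
  obtain ⟨x, y, z, w⟩ := v
  simp only at hv
  unfold val2
  simp only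
  have key : ∀ t : ℕ, n ≤ 4 * t ^ 2 → Nat.sqrt n / 2 ≤ t := by
    intro t ht
    have h1 : Nat.sqrt n ≤ 2 * t := by
      have h2 : n < (2 * t + 1) * (2 * t + 1) := by nlinarith
      have := Nat.sqrt_lt.2 h2
      omega
    omega
  have h2 : ∀ t : ℕ, Nat.sqrt n / 2 ≤ t → 2 ^ (Nat.sqrt n / 2) ≤ 2 ^ t := fun t ht =>
    Nat.pow_le_pow_right (by norm_num) ht
  have h3 : Nat.sqrt n / 2 ≤ x + y ∨ Nat.sqrt n / 2 ≤ z + w := by
    by_contra h4
    push Not at h4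
    have hx : ¬ n ≤ 4 * x ^ 2 := fun h => by have := key x h; omega
    have hy : ¬ n ≤ 4 * y ^ 2 := fun h => by have := key y h; omega
    have hz : ¬ n ≤ 4 * z ^ 2 := fun h => by have := key z h; omega
    have hw : ¬ n ≤ 4 * w ^ 2 := fun h => by have := key w h; omega
    omega
  rcases h3 with h4 | h4
  · have := h2 _ h4
    have := Nat.one_le_two_pow (n := z + w)
    omega
  · have := h2 _ h4
    have := Nat.one_le_two_pow (n := x + y)
    omega

lemma rho_s3 : ∃ C : ℝ, 0 < C ∧ ∀ᶠ n : ℕ in atTop, rho (s3 n) ≤ C * Real.log n / (n : ℝ) ^ (1 / 2 : ℝ) := by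
  obtain ⟨C, hC, K0, hK0⟩ := mert_up
  obtain ⟨c, hc, K1, hK1⟩ := mert
  have hB : Tendsto (fun n : ℕ => 2 ^ (Nat.sqrt n / 2)) atTop atTop := by
    refine (tendsto_pow_atTop_atTop_of_one_lt (r := 2) (by norm_num)).comp ?_
    refine tendsto_atTop.2 fun b => ?_
    filter_upwards [eventually_ge_atTop ((2 * b) ^ 2)] with n hn
    have : 2 * b ≤ Nat.sqrt n := by
      rw [Nat.le_sqrt]
      nlinarith
    omega
  refine ⟨16 * C / (c * Real.log 2), by have := Real.log_pos (show (1 : ℝ) < 2 by norm_num); positivity, ?_⟩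
  filter_upwards [hB.eventually_ge_atTop K0, eventually_ge_atTop K1, eventually_ge_atTop 100] with n h1 h2 h3
  have hn0 : (0 : ℝ) < n := by exact_mod_cast (by omega : 0 < n)
  have hlog : 0 < Real.log n := Real.log_pos (by exact_mod_cast (by omega : 1 < n))
  have hl2 : 0 < Real.log 2 := Real.log_pos (by norm_num)
  obtain ⟨R, hR⟩ : ∃ R : ℝ, R = (n : ℝ) ^ (1 / 2 : ℝ) := ⟨_, rfl⟩
  have hR2 : R ^ 2 = n := by
    rw [hR, ← Real.rpow_natCast, ← Real.rpow_mul hn0.le]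
    norm_num
  have hR0 : 0 < R := by rw [hR]; positivity
  have hR10 : 10 ≤ R := by
    by_contra h4
    push Not at h4
    have h5 : R ^ 2 < 100 := by nlinarith
    rw [hR2] at h5
    have h6 : n < 100 := by exact_mod_cast h5
    omega
  obtain ⟨B, hBd⟩ : ∃ B : ℕ, B = Nat.sqrt n / 2 := ⟨_, rfl⟩
  have hBR : R / 4 ≤ B := by
    have h4 : n < (Nat.sqrt n + 1) * (Nat.sqrt n + 1) := Nat.lt_succ_sqrt n
    have h5 : (n : ℝ) < ((Nat.sqrt n : ℕ) + 1) * ((Nat.sqrt n : ℕ) + 1) := by exact_mod_cast h4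
    rw [← hR2] at h5
    have h6 : R < (Nat.sqrt n : ℕ) + 1 := by
      by_contra h7
      push Not at h7
      have : (0 : ℝ) ≤ ((Nat.sqrt n : ℕ) : ℝ) := by positivity
      nlinarith
    have h7 : Nat.sqrt n ≤ 2 * B + 1 := by omega
    have h8 : ((Nat.sqrt n : ℕ) : ℝ) ≤ 2 * B + 1 := by exact_mod_cast h7
    linarith
  have hB0 : (0 : ℝ) < B := by linarith [div_pos hR0 (show (0 : ℝ) < 4 by norm_num)]
  have g1 := hK0 _ h1
  rw [← hBd] at g1
  have g2 : Real.log ((2 ^ B : ℕ) : ℝ) = B * Real.log 2 := by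
    push_cast
    rw [Real.log_pow]
  rw [g2] at g1
  have g3 := hK1 (n ^ 4) (h2.trans (Nat.le_self_pow (by norm_num) n))
  have g4 : Real.log ((n ^ 4 : ℕ) : ℝ) = 4 * Real.log n := by
    push_cast
    rw [Real.log_pow]
    norm_num
  rw [g4] at g3
  have hdis : Disjoint ((Icc 1 (n ^ 4)).filter Nat.Prime) (s3 n) := by
    rw [disjoint_left]
    intro q hq1 hq2
    rw [mem_filter, mem_Icc] at hq1
    unfold s3 at hq2
    rw [mem_filter, mem_Ioc] at hq2
    omega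
  have g5 : rho ((Icc 1 (n ^ 4)).filter Nat.Prime) * rho (s3 n) ≤ rho ((Icc 1 (2 ^ B)).filter Nat.Prime) := by
    have e : rho ((Icc 1 (n ^ 4)).filter Nat.Prime) * rho (s3 n) =
        rho ((Icc 1 (n ^ 4)).filter Nat.Prime ∪ s3 n) := by
      unfold rho
      rw [prod_union hdis]
    rw [e]
    refine rho_mono ?_ ?_
    · intro q hq
      rw [mem_union] at hq
      rcases hq with h4 | h4
      · exact (mem_filter.1 h4).2
      · exact (mem_filter.1 h4).2
    · intro q hq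
      rw [mem_filter, mem_Icc] at hq
      rw [mem_union]
      by_cases h4 : q ≤ n ^ 4
      · left
        rw [mem_filter, mem_Icc]
        exact ⟨⟨hq.1.1, h4⟩, hq.2⟩
      · right
        unfold s3
        rw [mem_filter, mem_Ioc, ← hBd]
        exact ⟨⟨not_le.1 h4, hq.1.2⟩, hq.2⟩
  have hs3 : ∀ q ∈ s3 n, q.Prime := fun q hq => (mem_filter.1 hq).2
  have hrb := rho_bounds hs3
  have g6 : c / (4 * Real.log n) * rho (s3 n) ≤ C / (B * Real.log 2) :=
    (mul_le_mul_of_nonneg_right g3 hrb.1).trans (g5.trans g1)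
  have g7 : C / (B * Real.log 2) ≤ C / (R / 4 * Real.log 2) :=
    div_le_div_of_nonneg_left hC.le (by positivity) (by gcongr)
  have g8 : c / (4 * Real.log n) * rho (s3 n) ≤ C / (R / 4 * Real.log 2) := g6.trans g7
  rw [← hR]
  calc rho (s3 n) = (4 * Real.log n / c) * (c / (4 * Real.log n) * rho (s3 n)) := by field_simp
    _ ≤ (4 * Real.log n / c) * (C / (R / 4 * Real.log 2)) := by gcongr
    _ = 16 * C / (c * Real.log 2) * Real.log n / R := by field_simp; ring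

lemma vs_small {n : ℕ} (hn : 100 ≤ n) {V : Finset ℕ} (hV : V ⊆ vs (Nat.sqrt (2 * n))) :
    (#V : ℝ) ≤ 4 * n ∧ (#V : ℝ) ^ 2 * ((Nat.sqrt (2 * n) + 2 : ℕ) : ℝ) / (n : ℝ) ^ 4 ≤ 1 / 2 := by
  have hn0 : (0 : ℝ) < n := by exact_mod_cast (by omega : 0 < n)
  obtain ⟨R, hR⟩ : ∃ R : ℝ, R = (n : ℝ) ^ (1 / 2 : ℝ) := ⟨_, rfl⟩
  have hR2 : R ^ 2 = n := by
    rw [hR, ← Real.rpow_natCast, ← Real.rpow_mul hn0.le]
    norm_num
  have hR0 : 0 < R := by rw [hR]; positivity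
  have hR10 : 10 ≤ R := by
    by_contra h4
    push Not at h4
    have h5 : R ^ 2 < 100 := by nlinarith
    rw [hR2] at h5
    have h6 : n < 100 := by exact_mod_cast h5
    omega
  have hA := sqrt_bd hR10 hR2
  obtain ⟨A, hAd⟩ : ∃ A : ℕ, A = Nat.sqrt (2 * n) := ⟨_, rfl⟩
  rw [← hAd] at hA hV ⊢
  have h1 : (#V : ℝ) ≤ 4 * n := by
    have h2 : #V ≤ (A + 1) ^ 2 := by
      refine (card_le_card hV).trans ?_
      unfold vs
      refine card_image_le.trans ?_
      rw [card_product, card_range, sq]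
    have h3 : (#V : ℝ) ≤ ((A : ℝ) + 1) ^ 2 := by exact_mod_cast h2
    calc (#V : ℝ) ≤ ((A : ℝ) + 1) ^ 2 := h3
      _ ≤ (2 * R) ^ 2 := by gcongr
      _ = 4 * R ^ 2 := by ring
      _ = 4 * n := by rw [hR2]
  refine ⟨h1, ?_⟩
  have hL : ((A + 2 : ℕ) : ℝ) ≤ 3 * R := by
    push_cast
    linarith
  calc (#V : ℝ) ^ 2 * ((A + 2 : ℕ) : ℝ) / (n : ℝ) ^ 4 ≤ (4 * (n : ℝ)) ^ 2 * (3 * R) / (n : ℝ) ^ 4 := by
        gcongr
    _ = 48 * (1 / R ^ 3) := by rw [← hR2]; field_simp; ring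
    _ ≤ 48 * (1 / 10 ^ 3) := by gcongr
    _ ≤ 1 / 2 := by norm_num

open Classical in
theorem upper0 {ε : ℝ} (hε : 0 < ε) (hε1 : ε ≤ 1) {Ω : Type} [MeasurableSpace Ω] {P : Measure Ω}
    {X : ℕ → Ω → ℕ} (h : Sys P X) :
    ∀ᵐ ω ∂P, ∀ᶠ n : ℕ in atTop, (#((quad n).filter (fun v => ∀ p : ℕ, p.Prime → n ^ 4 < p → p ≤ val2 v →
      ¬ val2 v ≡ X p ω [MOD p])) : ℝ) ≤ (n : ℝ) ^ (1 / 2 + 3 * ε) := by
  have hP := h.prob
  obtain ⟨C, hC, hrho⟩ := rho_s3
  have hs3 : ∀ n, ∀ q ∈ s3 n, q.Prime := fun n q hq => (mem_filter.1 hq).2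
  have hev : ∀ᶠ n : ℕ in atTop, P.real {ω | ⌈(n : ℝ) ^ (1 / 2 + ε)⌉₊ ≤
      #(sv (fun q => X q ω) (df ((quad n).image val2) (s3 n)) ((quad n).image val2))} ≤
      (n : ℝ) ^ (-(3 / 2) : ℝ) := by
    filter_upwards [hrho, eventually_ge_atTop 100, log_big hε (B := 32 * C) (by positivity),
      log_big (s := 1 / 2) (by norm_num) (B := 6) (by norm_num)] with n h1 h2 h3 h4
    have hn0 : (0 : ℝ) < n := by exact_mod_cast (by omega : 0 < n)
    have hn1 : (1 : ℝ) ≤ n := by exact_mod_cast (by omega : 1 ≤ n)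
    obtain ⟨V, hVd⟩ : ∃ V : Finset ℕ, V = (quad n).image val2 := ⟨_, rfl⟩
    rw [← hVd]
    have hV : V ⊆ vs (Nat.sqrt (2 * n)) := by
      intro N hN
      rw [hVd, mem_image] at hN
      obtain ⟨v, hv, rfl⟩ := hN
      exact val2_vs hv
    obtain ⟨h5, h6⟩ := vs_small h2 hV
    have h7 := rho_df (hs3 n) (fun N hN => vs_lt (hV hN)) (y := (n : ℝ) ^ 4) (by positivity)
      (fun q hq => by
        have h8 := (mem_filter.1 hq).1
        rw [mem_Ioc] at h8
        exact_mod_cast h8.1.le) h6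
    have h8 := many h V (df V (s3 n)) (fun q hq => hs3 n q (filter_subset _ _ hq)) df_inj
      ⌈(n : ℝ) ^ (1 / 2 + ε)⌉₊
    refine h8.trans ?_
    rw [Real.rpow_def_of_pos hn0 (-(3 / 2)), Real.exp_le_exp]
    have h9 := Nat.le_ceil ((n : ℝ) ^ (1 / 2 + ε))
    have hrb := rho_bounds (hs3 n)
    have h10 : rho (df V (s3 n)) * #V ≤ (n : ℝ) ^ (1 / 2 + ε) / 4 := by
      obtain ⟨R, hR⟩ : ∃ R : ℝ, R = (n : ℝ) ^ (1 / 2 : ℝ) := ⟨_, rfl⟩
      have hR2 : R ^ 2 = n := by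
        rw [hR, ← Real.rpow_natCast, ← Real.rpow_mul hn0.le]
        norm_num
      have hR0 : 0 < R := by rw [hR]; positivity
      rw [Real.rpow_add hn0, ← hR]
      rw [← hR] at h1
      have hlog : 0 ≤ Real.log n := Real.log_nonneg hn1
      calc rho (df V (s3 n)) * #V ≤ (2 * (C * Real.log n / R)) * (4 * n) := by
            refine mul_le_mul (h7.trans (by linarith)) h5 (by positivity) (by positivity)
        _ = R * (32 * C * Real.log n) / 4 := by
            rw [← hR2]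
            field_simp
            ring
        _ ≤ R * (n : ℝ) ^ ε / 4 := by gcongr
    have h11 : 6 * Real.log n ≤ (n : ℝ) ^ (1 / 2 + ε) :=
      h4.trans (Real.rpow_le_rpow_of_exponent_le hn1 (by linarith))
    linarith
  have hsum : Summable (fun n : ℕ => (n : ℝ) ^ (-(3 / 2) : ℝ)) := Real.summable_nat_rpow.2 (by norm_num)
  filter_upwards [bcant hsum hev] with ω hω
  filter_upwards [hω, fib hε hε1, rp_big hε 2, eventually_ge_atTop 100] with n h1 h2 h3 h4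
  have hn0 : (0 : ℝ) < n := by exact_mod_cast (by omega : 0 < n)
  have hn1 : (1 : ℝ) ≤ n := by exact_mod_cast (by omega : 1 ≤ n)
  have h5 : #(sv (fun q => X q ω) (df ((quad n).image val2) (s3 n)) ((quad n).image val2)) <
      ⌈(n : ℝ) ^ (1 / 2 + ε)⌉₊ := by
    by_contra h6
    exact h1 (not_lt.1 h6)
  obtain ⟨F, hF⟩ : ∃ F : Finset (ℕ × ℕ × ℕ × ℕ), F = (quad n).filter (fun v => ∀ p : ℕ, p.Prime → n ^ 4 < p →
    p ≤ val2 v → ¬ val2 v ≡ X p ω [MOD p]) := ⟨_, rfl⟩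
  rw [← hF]
  have h6 : #F ≤ ⌊(n : ℝ) ^ ε⌋₊ * #(F.image val2) := by
    refine card_le_mul_card_image F _ fun M _ => ?_
    refine (card_le_card (filter_subset_filter _ ?_)).trans (h2 M)
    rw [hF]
    exact filter_subset _ _
  have h7 : F.image val2 ⊆ sv (fun q => X q ω) (df ((quad n).image val2) (s3 n)) ((quad n).image val2) := by
    intro N hN
    rw [mem_image] at hN
    obtain ⟨v, hv, rfl⟩ := hN
    rw [hF, mem_filter] at hv
    unfold sv
    rw [mem_filter]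
    refine ⟨mem_image_of_mem _ hv.1, fun p hp => ?_⟩
    unfold df at hp
    rw [mem_filter] at hp
    have h8 := hp.1
    unfold s3 at h8
    rw [mem_filter, mem_Ioc] at h8
    exact hv.2 p h8.2 h8.1.1 (h8.1.2.trans (val2_ge hv.1))
  have h8 : (#(F.image val2) : ℝ) ≤ (n : ℝ) ^ (1 / 2 + ε) := by
    have h9 := (card_le_card h7).trans_lt h5
    exact (Nat.lt_ceil.1 h9).le
  calc (#F : ℝ) ≤ ((⌊(n : ℝ) ^ ε⌋₊ * #(F.image val2) : ℕ) : ℝ) := by exact_mod_cast h6
    _ = (⌊(n : ℝ) ^ ε⌋₊ : ℝ) * #(F.image val2) := by push_cast; ring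
    _ ≤ (n : ℝ) ^ ε * (n : ℝ) ^ (1 / 2 + ε) := by
        gcongr
        exact Nat.floor_le (by positivity)
    _ ≤ (n : ℝ) ^ (1 / 2 + 3 * ε) := by
        rw [← Real.rpow_add hn0]
        exact Real.rpow_le_rpow_of_exponent_le hn1 (by linarith)

end Pool.L5helper52.RP
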